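import Pool.Agent.H16R.BO.Stm

/-!
AN: analysis of the program of the recursion theorem.
-/

set_option autoImplicit false

namespace Pool.Agent.H16R.BO

open Nat.Partrec (Code)
open Encodable
open Pool.Agent.H639.LU Pool.Agent.H869R3.FN Pool.Agent.Y579.PP Pool.Agent.R616.DI
open Pool.Agent.Helper446.Defs Pool.Agent.Helper446.Oracle

theorem AN : P_AN := by
  intro c i q z X hcf hi
  obtain ⟨N1a, N1b, N1c⟩ := N1
  obtain ⟨D1a, D1b, D1c, D1d⟩ := D1
  -- growth
  have hgrow : ∀ t, dec c (seg X (t + 1)) =
      dec c (seg X t) ++ (nxt c (seg X (t + 1)) (dec c (seg X t)).length).toList := by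
    intro t
    rw [G2_seg_succ, D1b]
  have hgrow1 : ∀ t, (dec c (seg X (t + 1))).length ≤ (dec c (seg X t)).length + 1 := by
    intro t
    rw [hgrow, List.length_append]
    have : (nxt c (seg X (t + 1)) (dec c (seg X t)).length).toList.length ≤ 1 := by
      cases nxt c (seg X (t + 1)) (dec c (seg X t)).length <;> simp
    omega
  have hmono : ∀ s t, s ≤ t → (dec c (seg X s)).length ≤ (dec c (seg X t)).length :=
    fun s t hst => (D1c c _ _ (G2_seg_le X hst)).length_le
  -- existence of the positions
  have hex : ∀ n, ∃ t, (dec c (seg X t)).length = n := by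
    intro n
    induction n with
    | zero => exact ⟨0, by simp [seg, D1a]⟩
    | succ n ih =>
      classical
      by_contra hno
      push Not at hno
      set T := Nat.find ih with hT
      have hT1 : (dec c (seg X T)).length = n := Nat.find_spec ih
      have hT2 : ∀ t' < T, (dec c (seg X t')).length ≠ n := fun t' ht' => Nat.find_min ih ht'
      have hst : ∀ t, T ≤ t → (dec c (seg X t)).length = n := by
        intro t ht
        induction t, ht using Nat.le_induction with
        | base => exact hT1
        | succ t ht ih' =>
          have h1 := hgrow1 t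
          have h2 := hmono t (t + 1) (by omega)
          have h3 := hno (t + 1)
          omega
      -- a halting computation
      obtain ⟨s0, hs0⟩ := (hi (q (seg X T)) _).2 rfl
      obtain ⟨t1, ht1⟩ := N1c i X (q (seg X T)) s0 (Part.dom_iff_mem.2 ⟨_, hs0⟩)
      have hsome : (nxtv i (seg X (max t1 T)) (q (seg X T))).isSome = true :=
        N1a _ _ _ _ (G2_seg_le X (le_max_left _ _)) ht1
      have hdom : (c.eval (encode (n, seg X (max t1 T)))).Dom := by
        rw [hcf]
        have h1 : (seg X (max t1 T)).take T = seg X T := by
          rw [G2_take_seg, min_eq_left (le_max_right _ _)]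
        rw [G2_find' c (seg X (max t1 T)) n T (by rw [h1]; exact hT1) (by
          intro t' ht'
          rw [G2_take_seg, min_eq_left (by omega)]
          exact hT2 t' ht'), h1]
        rw [Part.bind_some]
        obtain ⟨v, hv⟩ := Option.isSome_iff_exists.1 hsome
        rw [hv]
        trivial
      obtain ⟨t2, ht2⟩ := N1c c X n _ hdom
      have h5 : (nxtv c (seg X (max t2 T + 1)) n).isSome = true :=
        N1a _ _ _ _ (G2_seg_le X (by omega)) ht2
      have h6 := hgrow (max t2 T)
      have h7 := hst (max t2 T) (le_max_right _ _)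
      have h8 := hst (max t2 T + 1) (by omega)
      rw [h7] at h6
      obtain ⟨v, hv⟩ := Option.isSome_iff_exists.1 h5
      have h9 : nxt c (seg X (max t2 T + 1)) n = some (v == 1) := by
        unfold nxt; rw [hv]; rfl
      rw [h9] at h6
      rw [h6] at h8
      simp at h8
      omega
  classical
  let T : ℕ → ℕ := fun n => Nat.find (hex n)
  have hT1 : ∀ n, (dec c (seg X (T n))).length = n := fun n => Nat.find_spec (hex n)
  have hT2 : ∀ n t', t' < T n → (dec c (seg X t')).length ≠ n :=
    fun n t' ht' => Nat.find_min (hex n) ht'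
  -- the values of `c`
  have hval : ∀ n s v, v ∈ c.eval (encode (n, seg X s)) → v = (z (q (seg X (T n)))).toNat := by
    intro n s v hv
    rw [hcf, Part.mem_bind_iff] at hv
    obtain ⟨x, hx, hv⟩ := hv
    obtain ⟨t, hxt, hxn, ht⟩ := G2_find _ _ _ _ hx
    rw [G2_take_seg] at hxt
    have h1 : T n ≤ min t s := by
      by_contra hlt
      push Not at hlt
      exact hT2 n _ hlt (by rw [← hxt]; exact hxn)
    have h2 : t ≤ T n := by
      by_contra hlt
      push Not at hlt
      refine ht (T n) hlt ?_
      rw [G2_take_seg, min_eq_left (le_trans h1 (min_le_right _ _))]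
      exact hT1 n
    have h3 : min t s = T n := le_antisymm (le_trans (min_le_left _ _) h2) h1
    rw [h3] at hxt
    subst hxt
    have hv' : nxtv i (seg X s) (q (seg X (T n))) = some v := by simpa using hv
    obtain ⟨s', -, hs'⟩ := N1b _ _ _ _ _ hv'
    exact (hi (q (seg X (T n))) v).1 ⟨s', hs'⟩
  -- one step
  have hstep : ∀ n, dec c (seg X (T (n + 1))) = dec c (seg X (T n)) ++ [z (q (seg X (T n)))] ∧
      ∃ s, (z (q (seg X (T n)))).toNat ∈ c.eval (encode (n, seg X s)) := by
    intro n
    have hlt : T n < T (n + 1) := by
      by_contra hle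
      push Not at hle
      have := hmono _ _ hle
      rw [hT1, hT1] at this
      omega
    obtain ⟨t, ht⟩ : ∃ t, T (n + 1) = t + 1 := ⟨T (n + 1) - 1, by omega⟩
    have h1 : (dec c (seg X t)).length = n := by
      have h2 := hmono (T n) t (by omega)
      rw [hT1] at h2
      have h3 := hT2 (n + 1) t (by omega)
      have h4 := hmono t (T (n + 1)) (by omega)
      rw [hT1] at h4
      omega
    have h5 : dec c (seg X t) = dec c (seg X (T n)) := by
      have h6 := D1c c _ _ (G2_seg_le X (show T n ≤ t by omega))
      exact (h6.eq_of_length (by rw [hT1, h1])).symm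
    have h7 := hgrow t
    rw [h1, ← ht] at h7
    have h8 := hT1 (n + 1)
    rw [h7, List.length_append, h1] at h8
    cases h9 : nxtv c (seg X (T (n + 1))) n with
    | none =>
      exfalso
      have : nxt c (seg X (T (n + 1))) n = none := by unfold nxt; rw [h9]; rfl
      rw [this] at h8
      simp at h8
    | some v =>
      have h10 : nxt c (seg X (T (n + 1))) n = some (v == 1) := by unfold nxt; rw [h9]; rfl
      obtain ⟨s', -, hs'⟩ := N1b _ _ _ _ _ h9
      have h11 := hval n s' v hs'
      have h12 : (v == 1) = z (q (seg X (T n))) := by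
        rw [h11]
        cases z (q (seg X (T n))) <;> rfl
      refine ⟨?_, ⟨s', by rw [← h11]; exact hs'⟩⟩
      rw [h7, h5, h10, h12]
      rfl
  have hseg : ∀ n, dec c (seg X (T n)) = seg (fun m => z (q (seg X (T m)))) n := by
    intro n
    induction n with
    | zero =>
      have : T 0 = 0 := by
        have h0 : (dec c (seg X 0)).length = 0 := by simp [seg, D1a]
        exact Nat.le_zero.1 (Nat.find_min' (hex 0) h0)
      rw [this]
      simp [seg, D1a]
    | succ n ih =>
      rw [(hstep n).1, ih, G2_seg_succ]
  refine ⟨fun n => z (q (seg X (T n))), ⟨fun n => ⟨T n, hseg n⟩, ?_⟩, ?_⟩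
  · intro n t hn ht
    have h1 : T n = t := by
      apply le_antisymm
      · exact Nat.find_min' (hex n) hn
      · by_contra hlt
        push Not at hlt
        have := ht (T n) hlt
        rw [hT1] at this
        omega
    simp only [h1]
  · intro n v
    constructor
    · rintro ⟨s, hs⟩
      exact hval n s v hs
    · rintro rfl
      exact (hstep n).2

end Pool.Agent.H16R.BO
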