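import Pool.Agent.H16R.BO.Stm

/-! [BC]: Borel sets with members of cofinally many degrees. -/

set_option autoImplicit false

namespace Pool.Agent.H16R.BO

open Nat.Partrec (Code)
open Encodable
open Pool.Agent.H639.LU Pool.Agent.H869R3.FN Pool.Agent.Y579.PP Pool.Agent.R616.DI
open Pool.Agent.Helper446.Defs Pool.Agent.Helper446.Oracle

/-- the table of the strategies -/
def bcTab (β : Code → Str → Bool) (p : ℕ) : Bool :=
  match (decode p : Option (ℕ × Code × Str)) with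
  | none => false
  | some (_, c, x) => β c x

theorem bcTab_eq (β : Code → Str → Bool) (t : ℕ) (c : Code) (x : Str) :
    bcTab β (encode (t, c, x)) = β c x := by
  simp [bcTab, encodek]

/-- [BC] -/
theorem BC (gm : P_GM) (an : P_AN) (rt : P_RT) : P_BC := by
  intro B hB hcof
  obtain ⟨B2a, -, -⟩ := B2 D1 B1
  by_contra hno
  have h1 : ∀ c : Code, ∃ β : Str → Bool, ∀ A Y, Follows c β A Y → Y ∉ B := by
    intro c
    rcases gm {p | p.2 ∈ B} (measurable_snd hB) c with ⟨T, hT, h⟩ | ⟨β, hβ⟩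
    · exfalso
      refine hno ⟨Rng T, ?_, B2a c T hT, B3 D1 B1 C2 K2 c T hT⟩
      rintro _ ⟨A, rfl⟩
      exact h A
    · exact ⟨β, hβ⟩
  choose β hβ using h1
  obtain ⟨Y, hY, hle⟩ := hcof (bcTab β)
  obtain ⟨i, hi⟩ := (le_iff Y (bcTab β)).1 hle
  obtain ⟨d, -, hd⟩ := rt i
  obtain ⟨A, hA, -⟩ := an (d 0) i (fun x => encode ((0 : ℕ), d 0, x)) (bcTab β) Y (hd 0) hi
  have h2 : (fun x => bcTab β (encode ((0 : ℕ), d 0, x))) = β (d 0) := by
    funext x
    exact bcTab_eq β 0 (d 0) x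
  rw [h2] at hA
  exact hβ (d 0) A Y hA hY

end Pool.Agent.H16R.BO
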