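import Pool.Agent.H16R.BO.Stm

/-! [BR], [PA], [MC]. -/

set_option autoImplicit false

namespace Pool.Agent.H16R.BO

open Nat.Partrec (Code)
open Encodable
open Pool.Agent.H639.LU Pool.Agent.H869R3.FN Pool.Agent.Y579.PP Pool.Agent.R616.DI
open Pool.Agent.Helper446.Defs Pool.Agent.Helper446.Oracle

/-- [BR] -/
theorem BR : P_BR := by
  intro c G hG S
  obtain ⟨b1, b2, b3, b4⟩ := B1 D1 c G hG
  obtain ⟨B2a, -, -⟩ := B2 D1 B1
  refine ⟨fun hS X hX => ?_, fun hS z => ?_⟩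
  · have hXR : X ∈ Rng G := B2a c G hG X fun t => by
      obtain ⟨X', ⟨A, -, rfl⟩, e⟩ := hX t
      exact ⟨_, ⟨A, rfl⟩, e⟩
    obtain ⟨A, rfl⟩ := hXR
    refine ⟨A, hS A fun t => ?_, rfl⟩
    obtain ⟨X', ⟨A', hA', rfl⟩, e⟩ := hX (G (seg A t)).length
    obtain ⟨k, hk⟩ := b3 A' (G (seg A t)).length
    rw [e, b4 A t] at hk
    have h1 : t = k := by
      have := congrArg List.length hk
      rwa [seg_len, seg_len] at this
    subst h1
    exact ⟨A', hA', hk.symm⟩
  · obtain ⟨A, hA, hz⟩ := hS z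
    exact ⟨br G A, ⟨A, hA, rfl⟩, le_trans' hz (le_br hG A)⟩

/-- a program which reads the even digits of the decoded sequence -/
theorem even_prog (c : Code) : ∃ i : Code, ∀ (G : Str → Str), Tr c G → ∀ A τ : ℕ → Bool,
    (∀ n, A (2 * n) = τ n) → Red i (br G A) τ := by
  have e1 : Computable (fun p : ℕ × Str => dec c p.2) :=
    c2.comp (f := fun p : Code × Str => dec p.1 p.2) (g := fun p : ℕ × Str => (c, p.2))
      (by fun_prop)
  have e2 : Computable (fun p : ℕ × Str => 2 * p.1) :=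
    (Primrec.nat_mul.to_comp).comp (Computable.const 2) Computable.fst
  have e3 : Computable (fun p : ℕ × Str => (dec c p.2)[2 * p.1]?) :=
    (Primrec.list_getElem?.to_comp).comp e1 e2
  have e5 : Computable (fun q : (ℕ × Str) × Bool => q.2.toNat) :=
    (Computable.cond (Computable.snd : Computable (fun q : (ℕ × Str) × Bool => q.2))
      (Computable.const 1) (Computable.const 0)).of_eq (fun q => by cases q.2 <;> rfl)
  have e4 : Computable (fun p : ℕ × Str => ((dec c p.2)[2 * p.1]?).map Bool.toNat) :=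
    Computable.option_map e3 e5.to₂
  obtain ⟨i, hi⟩ := red_of_fun e4
  refine ⟨i, fun G hG A τ hA => ?_⟩
  obtain ⟨b1, b2, b3, b4⟩ := B1 D1 c G hG
  rw [hi]
  intro n v
  constructor
  · rintro ⟨s, hs⟩
    obtain ⟨k, hk⟩ := b3 A s
    change ((dec c (seg (br G A) s))[2 * n]?).map Bool.toNat = some v at hs
    rw [hk, seg_get] at hs
    split_ifs at hs with h1
    · rw [hA] at hs
      exact (Option.some_inj.1 hs).symm
    · exact absurd hs (by simp)
  · rintro rfl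
    refine ⟨(G (seg A (2 * n + 1))).length, ?_⟩
    change ((dec c (seg (br G A) (G (seg A (2 * n + 1))).length))[2 * n]?).map Bool.toNat = _
    rw [b4, seg_get, if_pos (Nat.lt_succ_self _), hA]
    rfl

/-- [PA] -/
theorem PA : P_PA := by
  intro F hF hF' τ
  obtain ⟨c, G, hG⟩ := emb F hF hF'
  obtain ⟨-, B2b, -⟩ := B2 D1 B1
  have hsub : Rng G ⊆ F := B2b F c G hG hF
  set S : Set (ℕ → Bool) := {A | ∀ n, A (2 * n) = τ n} with hS
  have hclS : Clo S := by
    intro X hX n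
    obtain ⟨A, hA, e⟩ := hX (2 * n + 1)
    rw [← hA n]
    exact (seg_inj e (Nat.lt_succ_self _)).symm
  have hcofS : Cof S := by
    intro z
    obtain ⟨A, hA0, hA1⟩ := joinEven τ z
    exact ⟨A, hA0, K4.2.2.2 A z (fun n => 2 * n + 1) (by fun_prop) (fun n => (hA1 n).symm)⟩
  obtain ⟨h1, h2⟩ := BR c G hG.toTr S
  obtain ⟨i, hi⟩ := even_prog c
  refine ⟨br G '' S, ?_, h1 hclS, h2 hcofS, i, ?_⟩
  · rintro _ ⟨A, -, rfl⟩
    exact hsub ⟨A, rfl⟩
  · rintro _ ⟨A, hA, rfl⟩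
    exact hi G hG.toTr A τ hA

/-- [MC] -/
theorem MC : P_BC → P_MC := by
  intro hBC B hB hinv hcof
  obtain ⟨F, hFB, hF, hF'⟩ := hBC B hB hcof
  obtain ⟨z, hz⟩ := cone_mem F hF hF'
  refine ⟨z, fun X hX => ?_⟩
  obtain ⟨Y, hY, h1, h2⟩ := hz X hX
  exact hinv Y (hFB hY) X h2 h1

end Pool.Agent.H16R.BO
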