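import Pool.Agent.H16R.BO.Stm

/-!
CC: nested trees give a chain for a c.e. operator.
-/

set_option autoImplicit false

namespace Pool.Agent.H16R.BO

open Nat.Partrec (Code)
open Encodable
open Pool.Agent.H639.LU Pool.Agent.H869R3.FN Pool.Agent.Y579.PP Pool.Agent.R616.DI
open Pool.Agent.Helper446.Defs Pool.Agent.Helper446.Oracle

/-- some odd digit among the first ones is `true` -/
def odb (x : Str) : Bool := Nat.rec false (fun i r => r || x.getD (2 * i + 1) false) x.length

theorem odb_comp : Computable odb := by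
  have h : Primrec odb := by
    refine Primrec.nat_rec' (f := fun x : Str => x.length) (g := fun _ => false)
      (h := fun (x : Str) (p : ℕ × Bool) => p.2 || x.getD (2 * p.1 + 1) false)
      Primrec.list_length (Primrec.const false) ?_
    refine Primrec.or.comp (Primrec.snd.comp Primrec.snd) ?_
    refine (Primrec.list_getD false).comp Primrec.fst ?_
    exact Primrec.nat_add.comp (Primrec.nat_mul.comp (Primrec.const 2)
      (Primrec.fst.comp Primrec.snd)) (Primrec.const 1)
  exact h.to_comp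

theorem odb_aux (x : Str) (k : ℕ) :
    (Nat.rec false (fun i r => r || x.getD (2 * i + 1) false) k : Bool) = true ↔
      ∃ i < k, x.getD (2 * i + 1) false = true := by
  induction k with
  | zero => simp
  | succ k ih =>
    show ((Nat.rec false (fun i r => r || x.getD (2 * i + 1) false) k : Bool) ||
      x.getD (2 * k + 1) false) = true ↔ _
    rw [Bool.or_eq_true, ih]
    constructor
    · rintro (⟨i, hi, h⟩ | h)
      · exact ⟨i, by omega, h⟩
      · exact ⟨k, by omega, h⟩
    · rintro ⟨i, hi, h⟩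
      rcases Nat.lt_succ_iff_lt_or_eq.1 hi with h1 | h1
      · exact Or.inl ⟨i, h1, h⟩
      · right; rw [← h1]; exact h

theorem odb_iff (x : Str) : odb x = true ↔ ∃ i, x.getD (2 * i + 1) false = true := by
  unfold odb
  rw [odb_aux]
  constructor
  · rintro ⟨i, -, h⟩
    exact ⟨i, h⟩
  · rintro ⟨i, h⟩
    refine ⟨i, ?_, h⟩
    by_contra hcon
    have : x.length ≤ 2 * i + 1 := by omega
    rw [List.getD_eq_getElem?_getD, List.getElem?_eq_none this] at h
    exact absurd h (by simp)

theorem getD_seg (A : ℕ → Bool) (k n : ℕ) :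
    (seg A k).getD n false = true ↔ n < k ∧ A n = true := by
  rw [List.getD_eq_getElem?_getD, seg_get]
  by_cases h : n < k
  · rw [if_pos h]
    simp [h]
  · rw [if_neg h]
    simp [h]

theorem odb_br {c : Code} {T : Str → Str} (hT : Tr c T) (A : ℕ → Bool) :
    (∃ s, odb (dec c (seg (br T A) s)) = true) ↔ od A := by
  obtain ⟨b1, b2, b3, b4⟩ := B1 D1 c T hT
  constructor
  · rintro ⟨s, hs⟩
    obtain ⟨k, hk⟩ := b3 A s
    rw [hk, odb_iff] at hs
    obtain ⟨i, hi⟩ := hs
    exact ⟨i, ((getD_seg A k _).1 hi).2⟩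
  · rintro ⟨n, hn⟩
    refine ⟨(T (seg A (2 * n + 2))).length, ?_⟩
    rw [b4, odb_iff]
    exact ⟨n, (getD_seg A _ _).2 ⟨by omega, hn⟩⟩

theorem CC : P_CC := by
  intro G m e g ν b hG
  obtain ⟨ce, tr, sub, val⟩ := hG
  have h1 : Computable (fun p : ℕ × Str => dec (e p.1) p.2) :=
    c2.comp (f := fun p : Code × Str => dec p.1 p.2) (g := fun p : ℕ × Str => (e p.1, p.2))
      ((ce.comp Computable.fst).pair Computable.snd)
  have h2 : Computable (fun p : ℕ × Str => odb (dec (e p.1) p.2)) := odb_comp.comp h1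
  have h3 : Computable (fun p : ℕ × Str => decide (1 ≤ p.1)) :=
    (Primrec.nat_le.decide.comp (Primrec.const 1) Primrec.fst).to_comp
  have h4 : Computable (fun p : ℕ × Str => decide (p.1 ≤ m)) :=
    (Primrec.nat_le.decide.comp Primrec.fst (Primrec.const m)).to_comp
  have h5 : Computable (fun p : ℕ × Str => (decide (1 ≤ p.1) && decide (p.1 ≤ m)) &&
      odb (dec (e p.1) p.2)) :=
    Primrec.and.to_comp.comp (Primrec.and.to_comp.comp h3 h4) h2
  obtain ⟨r, hr⟩ := w_of_fun h5
  have hr' : ∀ Y q, W r Y q ↔ (1 ≤ q ∧ q ≤ m) ∧ ∃ s, odb (dec (e q) (seg Y s)) = true := by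
    intro Y q
    rw [hr]
    simp only [Bool.and_eq_true, decide_eq_true_eq]
    constructor
    · rintro ⟨s, h, h'⟩
      exact ⟨h, s, h'⟩
    · rintro ⟨h, s, h'⟩
      exact ⟨s, h, h'⟩
  have hW : ∀ q, 1 ≤ q → q ≤ m → ∀ A, (W r (br (g q) A) q ↔ od A) := by
    intro q hq hq' A
    rw [hr', odb_br (tr q hq')]
    exact ⟨fun h => h.2, fun h => ⟨⟨hq, hq'⟩, h⟩⟩
  refine ⟨r, ⟨ce, Computable.id, tr, ?_⟩, fun Y q h => ((hr' Y q).1 h).1, hW⟩
  intro q hq Y hY
  obtain ⟨A, hA, rfl⟩ := sub q hq Y hY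
  obtain ⟨b1, b2, b3, b4⟩ := B1 D1 _ _ (tr (q + 1) hq)
  refine ⟨⟨A, rfl⟩, fun h => hA ((hW (q + 1) (by omega) hq A).1 h), fun t => ?_⟩
  set A' : ℕ → Bool := fun n => if n < t then A n else true with hA'
  have hs : seg A' t = seg A t := by
    unfold seg
    refine List.map_congr_left fun n hn => ?_
    rw [List.mem_range] at hn
    simp [hA', hn]
  have hod : od A' := ⟨t, by
    have : ¬ 2 * t + 1 < t := by omega
    simp [hA', this]⟩
  refine ⟨br (g (q + 1)) A', ⟨A', rfl⟩, ?_, (hW (q + 1) (by omega) hq A').2 hod⟩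
  have e1 := (b2 A' t).2
  have e2 := (b2 A t).2
  have e3 := (b2 A t).1
  rw [hs] at e1
  have e4 := congrArg (List.take t) (e1.trans e2.symm)
  rwa [take_seg' _ e3, take_seg' _ e3] at e4

end Pool.Agent.H16R.BO
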