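import Pool.Agent.H16R.BO.Stm

/-!
DP: the level is computed from `G Y`.
-/

set_option autoImplicit false

namespace Pool.Agent.H16R.BO

open Nat.Partrec (Code)
open Encodable
open Pool.Agent.H639.LU Pool.Agent.H869R3.FN Pool.Agent.Y579.PP Pool.Agent.R616.DI
open Pool.Agent.Helper446.Defs Pool.Agent.Helper446.Oracle

/-- the search in the finite table -/
def lvs (ν : ℕ → ℕ) (b : ℕ → Bool) (p : ℕ × Str) (m : ℕ) : Bool :=
  Nat.rec false (fun i r => r || (decide (p.1 ≤ i + 1) && (p.2.getD (ν (i + 1)) false == b (i + 1)))) m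

theorem lvs_iff (ν : ℕ → ℕ) (b : ℕ → Bool) (p : ℕ × Str) (m : ℕ) : lvs ν b p m = true ↔
    ∃ i < m, p.1 ≤ i + 1 ∧ p.2.getD (ν (i + 1)) false = b (i + 1) := by
  induction m with
  | zero => simp [lvs]
  | succ k ih =>
    show (lvs ν b p k || (decide (p.1 ≤ k + 1) && (p.2.getD (ν (k + 1)) false == b (k + 1)))) =
      true ↔ _
    rw [Bool.or_eq_true, ih]
    simp only [Bool.and_eq_true, decide_eq_true_eq, beq_iff_eq]
    constructor
    · rintro (⟨i, hi, h⟩ | h)
      · exact ⟨i, by omega, h⟩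
      · exact ⟨k, by omega, h⟩
    · rintro ⟨i, hi, h⟩
      rcases Nat.lt_succ_iff_lt_or_eq.1 hi with h1 | h1
      · exact Or.inl ⟨i, h1, h⟩
      · right; rw [← h1]; exact h

theorem lvs_comp (ν : ℕ → ℕ) (b : ℕ → Bool) (m : ℕ) : Computable (fun p : ℕ × Str => lvs ν b p m) := by
  induction m with
  | zero => exact Computable.const false
  | succ k ih =>
    have h1 : Computable (fun p : ℕ × Str => decide (p.1 ≤ k + 1)) :=
      (Primrec.nat_le.decide.comp Primrec.fst (Primrec.const (k + 1))).to_comp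
    have h2 : Computable (fun p : ℕ × Str => p.2.getD (ν (k + 1)) false) :=
      ((Primrec.list_getD false).comp Primrec.snd (Primrec.const (ν (k + 1)))).to_comp
    have h3 : Computable (fun p : ℕ × Str => (p.2.getD (ν (k + 1)) false == b (k + 1))) :=
      Primrec.beq.to_comp.comp h2 (Computable.const (b (k + 1)))
    exact Primrec.or.to_comp.comp ih (Primrec.and.to_comp.comp h1 h3)

theorem DP : P_DP := by
  intro G m e g ν b r hG hr hW
  set N : ℕ := (∑ p ∈ Finset.range (m + 1), ν p) + 1 with hN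
  have hν : ∀ p ≤ m, ν p < N := by
    intro p hp
    have h1 : ν p ≤ ∑ p ∈ Finset.range (m + 1), ν p :=
      Finset.single_le_sum (f := fun p => ν p) (fun _ _ => Nat.zero_le _)
        (Finset.mem_range.2 (by omega))
    omega
  have hδ : Computable (fun p : ℕ × Str => decide (1 ≤ p.1) && lvs ν b p m) :=
    Primrec.and.to_comp.comp
      ((Primrec.nat_le.decide.comp (Primrec.const 1) Primrec.fst).to_comp) (lvs_comp ν b m)
  obtain ⟨d, hd⟩ := exists_fun hδ (Computable.const N)
  have hsub : ∀ q k, q + k ≤ m → Rng (g q) ⊆ Rng (g (q + k)) := by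
    intro q k
    induction k with
    | zero => intro _; exact fun _ h => h
    | succ k ih =>
      intro h Y hY
      obtain ⟨A, -, hA⟩ := hG.sub (q + k) (by omega) Y (ih (by omega) hY)
      exact ⟨A, hA.symm⟩
  refine ⟨d, fun q Y hL => (hd _ _).2 fun n => ?_⟩
  obtain ⟨hq, hYq, hp⟩ := hL
  rw [Bool.eq_iff_iff, ch_true]
  show W r Y n ↔ (decide (1 ≤ n) && lvs ν b (n, (List.range N).map (G Y)) m) = true
  rw [Bool.and_eq_true, decide_eq_true_eq, lvs_iff]
  have hget : ∀ p ≤ m, ((List.range N).map (G Y)).getD (ν p) false = G Y (ν p) := fun p hp' =>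
    seg_getD (G Y) N (ν p) (hν p hp')
  constructor
  · intro h
    obtain ⟨h1, h2⟩ := hr Y n h
    refine ⟨h1, ?_⟩
    have h3 : n ≤ q := (hp n h1 h2).1 h
    obtain ⟨A, rfl⟩ := hYq
    have h4 : W r (br (g q) A) q := (hp q (by omega) hq).2 le_rfl
    have h5 : od A := (hW q (by omega) hq A).1 h4
    have h6 := (hG.val q (by omega) hq A).2 h5
    refine ⟨q - 1, by omega, ?_, ?_⟩
    · show n ≤ q - 1 + 1
      omega
    · rw [show q - 1 + 1 = q by omega]
      show ((List.range N).map (G (br (g q) A))).getD (ν q) false = b q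
      rw [hget q hq, h6]
  · rintro ⟨h1, i, hi, h2, h3⟩
    have h2' : n ≤ i + 1 := h2
    have h3' : ((List.range N).map (G Y)).getD (ν (i + 1)) false = b (i + 1) := h3
    rw [hget (i + 1) (by omega)] at h3'
    have h4 : i + 1 ≤ q := by
      by_contra hcon
      obtain ⟨k, hk⟩ : ∃ k, i = q + k := ⟨i - q, by omega⟩
      have h5 : Y ∈ Rng (g i) := by
        rw [hk]
        exact hsub q k (by omega) hYq
      obtain ⟨A, hA, hYA⟩ := hG.sub i hi Y h5
      rw [hYA] at h3'
      exact hA ((hG.val (i + 1) (by omega) (by omega) A).1 h3')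
    exact (hp n h1 (by omega)).2 (by omega)

end Pool.Agent.H16R.BO
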