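import Pool.Agent.H16R.BO.LB

/-!
Consequences of the local theorem for Borel operations, with the leaves as hypotheses.
-/

set_option autoImplicit false

namespace Pool.Agent.H16R.BO

open Nat.Partrec (Code)
open Encodable
open Pool.Agent.H639.LU Pool.Agent.H869R3.FN Pool.Agent.Y579.PP Pool.Agent.R616.DI
open Pool.Agent.Helper446.Defs Pool.Agent.Helper446.Oracle

/-- Every operation `H` above the identity from whose values the values of `G` are computed with `k`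
candidates is above the jump. -/
theorem AB2 (hLB : P_LB) (F F₁ : Set (ℕ → Bool)) (hF₁ : F₁ ⊆ F) (hC : Clo F₁) (hC' : Cof F₁)
    (G : (ℕ → Bool) → ℕ → Bool) (hGm : Measurable G) (hN : NTG G F₁)
    (H : (ℕ → Bool) → ℕ → Bool) (z₂ : ℕ → Bool) (hGX : ∀ X ∈ F, le z₂ X → le X (H X))
    (k : ℕ) (u : Code → Code → Finset Code) (hu : ∀ i j, (u i j).card ≤ k)
    (hinv : ∀ X ∈ F, le z₂ X → ∀ i j : Code, ∀ Y ∈ F, Red i X Y → Red j Y X →
      ∃ l ∈ u i j, Red l (H X) (G Y)) :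
    ∃ z, ∀ X ∈ F, le z X → le (ch (J X)) (H X) := by
  classical
  obtain ⟨z₁, hz₁⟩ := hLB G hGm F₁ hC hC' hN k
  refine ⟨mu3 u z₁ z₂, fun X hXF hX => ?_⟩
  have h2 : le z₂ X := le_trans' (K4.2.2.2 (mu3 u z₁ z₂) z₂
    (fun n => encode ((2, (Code.zero, Code.zero, Code.zero), n) :
      ℕ × (Code × Code × Code) × ℕ)) (by fun_prop) (fun n => by rw [mu3_2])) hX
  have h1 : le z₁ X := le_trans' (K4.2.2.2 (mu3 u z₁ z₂) z₁
    (fun n => encode ((1, (Code.zero, Code.zero, Code.zero), n) :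
      ℕ × (Code × Code × Code) × ℕ)) (by fun_prop) (fun n => by rw [mu3_1])) hX
  have hXV := hGX X hXF h2
  set V := H X with hV
  have hmu : REIn (St V) (fun n => n ∈ St (mu3 u z₁ z₂)) :=
    (turingReducible_iff.1 (le_trans' hX hXV)).1
  have hS : REIn (St V) (fun n : ℕ => ∃ q : Code × Code × Code, encode q = n ∧
      q.2.2 ∈ u q.1 q.2.1) := by
    refine REIn.ex (S := fun (n : ℕ) (q : Code × Code × Code) => encode q = n ∧
      q.2.2 ∈ u q.1 q.2.1) (REIn.and ?_ ?_)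
    · exact REIn.of_re (Pool.Agent.Helper446.RE.eq (by fun_prop) (by fun_prop))
    · have h4 : REIn (St V) (fun x : ℕ × (Code × Code × Code) =>
          encode ((0, x.2, 0) : ℕ × (Code × Code × Code) × ℕ) ∈ St (mu3 u z₁ z₂)) :=
        REIn.comp (S := fun n => n ∈ St (mu3 u z₁ z₂)) hmu (by fun_prop)
      refine h4.of_eq fun x => ?_
      obtain ⟨x1, i, j, l⟩ := x
      change mu3 u z₁ z₂ _ = true ↔ _
      rw [mu3_u]
  obtain ⟨e, he⟩ := K10 V _ hS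
  have he' : ∀ i j l : Code, W e V (encode (i, j, l)) ↔ l ∈ u i j := by
    intro i j l
    rw [← he]
    constructor
    · rintro ⟨q, hq, hl⟩
      have : q = (i, j, l) := encode_injective hq
      subst this
      exact hl
    · intro hl
      exact ⟨(i, j, l), rfl, hl⟩
  refine hz₁ X h1 V hXV e ?_ ?_
  · intro i j
    have h5 : {l : Code | W e V (encode (i, j, l))} = ↑(u i j) := by
      ext l
      simp only [Set.mem_ofPred_eq, Finset.mem_coe]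
      exact he' i j l
    rw [h5, Set.encard_coe_eq_coe_finsetCard]
    exact_mod_cast hu i j
  · intro i j Y hYF hi hj
    obtain ⟨l, hl, hlr⟩ := hinv X hXF h2 i j Y (hF₁ hYF) hi hj
    exact ⟨l, (he' i j _).2 hl, hlr⟩

theorem ntg_of {G : (ℕ → Bool) → ℕ → Bool} {F F₁ : Set (ℕ → Bool)} (h₁ : F₁ ⊆ F) {z₀ : ℕ → Bool}
    (h : ∀ X ∈ F, le z₀ X → ¬ le (G X) X) : NTG G F₁ := by
  rintro ⟨F', g1, -, g3, c, hc⟩
  obtain ⟨Y, hY, hzY⟩ := g3 z₀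
  exact h Y (h₁ (g1 hY)) hzY ((le_iff _ _).2 ⟨c, hc Y hY⟩)

/-- the local form, for Borel sets of oracles -/
theorem localB (hBC : P_BC) (hLB : P_LB) (F : Set (ℕ → Bool)) (hF : MeasurableSet F) (hF' : Cof F)
    (G : (ℕ → Bool) → ℕ → Bool) (hG : Measurable G) (z₀ : ℕ → Bool)
    (h : ∀ X ∈ F, le z₀ X → ¬ le (G X) X) (k : ℕ) :
    ∃ z₁ : ℕ → Bool, ∀ X, le z₁ X → ∀ V : ℕ → Bool, le X V → ∀ e : Code,
      (∀ i j : Code, {l : Code | W e V (encode (i, j, l))}.encard ≤ k) →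
      (∀ i j : Code, ∀ Y ∈ F, Red i X Y → Red j Y X →
        ∃ l : Code, W e V (encode (i, j, l)) ∧ Red l V (G Y)) →
      le (ch (J X)) V := by
  obtain ⟨F₁, h1, h2, h3⟩ := hBC F hF hF'
  obtain ⟨z₁, hz₁⟩ := hLB G hG F₁ h2 h3 (ntg_of h1 h) k
  exact ⟨z₁, fun X hX V hV e hc hr => hz₁ X hX V hV e hc fun i j Y hY => hr i j Y (h1 hY)⟩

/-- operations `H` which compute `G` with `k` candidates -/
theorem aboveB (hBC : P_BC) (hLB : P_LB) (F : Set (ℕ → Bool)) (hF : MeasurableSet F) (hF' : Cof F)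
    (G : (ℕ → Bool) → ℕ → Bool) (hG : Measurable G) (z₀ : ℕ → Bool)
    (h : ∀ X ∈ F, le z₀ X → ¬ le (G X) X) (H : (ℕ → Bool) → ℕ → Bool) (k : ℕ)
    (u : Code → Code → Finset Code) (hu : ∀ i j, (u i j).card ≤ k)
    (hinv : ∀ X ∈ F, le z₀ X → le X (H X) ∧ ∀ i j : Code, ∀ Y ∈ F, Red i X Y → Red j Y X →
      ∃ l ∈ u i j, Red l (H X) (G Y)) :
    ∃ z, ∀ X ∈ F, le z X → le (ch (J X)) (H X) := by
  obtain ⟨F₁, h1, h2, h3⟩ := hBC F hF hF'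
  exact AB2 hLB F F₁ h1 h2 h3 G hG (ntg_of h1 h) H z₀ (fun X hX hz => (hinv X hX hz).1) k u hu
    (fun X hX hz => (hinv X hX hz).2)

/-- the dichotomy on Borel sets -/
theorem dichB (hBC : P_BC) (hLB : P_LB) (F : Set (ℕ → Bool)) (hF : MeasurableSet F) (hF' : Cof F)
    (G : (ℕ → Bool) → ℕ → Bool) (hG : Measurable G) (z₂ : ℕ → Bool) (k : ℕ)
    (u : Code → Code → Finset Code) (hu : ∀ i j, (u i j).card ≤ k)
    (hinv : ∀ X ∈ F, le z₂ X → le X (G X) ∧ ∀ i j : Code, ∀ Y ∈ F, Red i X Y → Red j Y X →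
      ∃ l ∈ u i j, Red l (G X) (G Y)) :
    (∃ F' ⊆ F, Clo F' ∧ Cof F' ∧ ∃ c : Code, ∀ Y ∈ F', Red c Y (G Y)) ∨
      ∃ z, ∀ X ∈ F, le z X → le (ch (J X)) (G X) := by
  obtain ⟨F₁, h1, h2, h3⟩ := hBC F hF hF'
  by_cases hN : NTG G F₁
  · right
    exact AB hLB F F₁ h1 h2 h3 G hG hN z₂ (fun X hX hz => (hinv X hX hz).1) k u hu
      (fun X hX hz => (hinv X hX hz).2)
  · left
    unfold NTG at hN
    push Not at hN
    obtain ⟨F', g1, g2, g3, g4⟩ := hN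
    exact ⟨F', g1.trans h1, g2, g3, g4⟩

/-- solutions -/
theorem solB (hBC : P_BC) (hLB : P_LB) (F : Set (ℕ → Bool)) (hF : MeasurableSet F) (hF' : Cof F)
    (G : (ℕ → Bool) → ℕ → Bool) (hG : Measurable G) (z₀ : ℕ → Bool)
    (h : ∀ X ∈ F, le z₀ X → ¬ le (G X) X ∧ le X (G X) ∧ ¬ le (ch (J X)) (G X)) (k : ℕ) :
    ∃ i j : Code, ∀ L : Finset Code, L.card ≤ k → ∀ z : ℕ → Bool, ∃ X ∈ F, ∃ Y ∈ F,
      le z X ∧ Red i X Y ∧ Red j Y X ∧ ∀ l ∈ L, ¬ Red l (G X) (G Y) := by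
  refine no_cand G F k fun u z₂ hu hinv => ?_
  obtain ⟨z₃, h3a, h3b⟩ := join2 z₀ z₂
  obtain ⟨z, hz⟩ := aboveB hBC hLB F hF hF' G hG z₃
    (fun X hX hX' => (h X hX (le_trans' h3a hX')).1) G k u hu
    (fun X hX hX' => ⟨(h X hX (le_trans' h3a hX')).2.1, hinv X hX (le_trans' h3b hX')⟩)
  obtain ⟨z₄, h4a, h4b⟩ := join2 z₀ z
  obtain ⟨Y, hY, hzY⟩ := hF' z₄
  exact (h Y hY (le_trans' h4a hzY)).2.2 (hz Y hY (le_trans' h4b hzY))

/-- the dichotomy on a cone -/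
theorem coneB (hBC : P_BC) (hLB : P_LB) (G : (ℕ → Bool) → ℕ → Bool) (hG : Measurable G)
    (z₂ : ℕ → Bool) (k : ℕ) (u : Code → Code → Finset Code) (hu : ∀ i j, (u i j).card ≤ k)
    (hinv : ∀ X, le z₂ X → le X (G X) ∧ ∀ (i j : Code) (Y : ℕ → Bool), Red i X Y → Red j Y X →
      ∃ l ∈ u i j, Red l (G X) (G Y)) :
    (∃ z, ∀ X, le z X → le (G X) X) ∨ ∃ z, ∀ X, le z X → le (ch (J X)) (G X) := by
  rcases dichB hBC hLB Set.univ MeasurableSet.univ Pool.Agent.R616.DI.cof_univ G hG z₂ k u hu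
    (fun X _ hz => ⟨(hinv X hz).1, fun i j Y _ => (hinv X hz).2 i j Y⟩) with
    ⟨F', -, g2, g3, c, hc⟩ | ⟨z, hz⟩
  · left
    refine cone_triv g2 g3 G z₂ (fun X hX Y hXY hYX => ?_)
      (fun Y hY => (le_iff _ _).2 ⟨c, hc Y hY⟩)
    obtain ⟨j, hj⟩ := (le_iff _ _).1 hXY
    obtain ⟨i, hi⟩ := (le_iff _ _).1 hYX
    obtain ⟨l, -, hl⟩ := (hinv X hX).2 i j Y hi hj
    exact (le_iff _ _).2 ⟨l, hl⟩
  · right
    exact ⟨z, fun X hX => hz X trivial hX⟩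

theorem join_seq (z : ℕ → ℕ → Bool) : ∃ y : ℕ → Bool, ∀ n, le (z n) y :=
  ⟨fun p => z p.unpair.1 p.unpair.2, fun n => K4.2.2.2 _ _ (fun m => Nat.pair n m)
    ((Primrec₂.natPair.comp (Primrec.const n) Primrec.id).to_comp) (fun m => by simp)⟩

theorem join_cnt {ι : Type*} [Countable ι] (z : ι → ℕ → Bool) : ∃ y : ℕ → Bool, ∀ n, le (z n) y := by
  rcases isEmpty_or_nonempty ι with h | h
  · exact ⟨fun _ => false, fun n => (h.false n).elim⟩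
  · obtain ⟨f, hf⟩ := exists_surjective_nat ι
    obtain ⟨y, hy⟩ := join_seq (fun n => z (f n))
    refine ⟨y, fun n => ?_⟩
    obtain ⟨m, rfl⟩ := hf n
    exact hy m

/-- failure of a list in a degree -/
def Fail (G : (ℕ → Bool) → ℕ → Bool) (i j : Code) (L : Finset Code) (X : ℕ → Bool) : Prop :=
  ∃ X₁ Y₁ : ℕ → Bool, le X₁ X ∧ le X X₁ ∧ Red i X₁ Y₁ ∧ Red j Y₁ X₁ ∧
    ∀ l ∈ L, ¬ Red l (G X₁) (G Y₁)

theorem fail_cone (hMI : P_MI) (hMC : P_MC) {G : (ℕ → Bool) → ℕ → Bool} (hG : Measurable G)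
    {i j : Code} {L : Finset Code}
    (h : ∀ z : ℕ → Bool, ∃ X Y, le z X ∧ Red i X Y ∧ Red j Y X ∧ ∀ l ∈ L, ¬ Red l (G X) (G Y)) :
    ∃ z, ∀ X, le z X → Fail G i j L X := by
  refine hMC {X | Fail G i j L X} (hMI G hG i j L) ?_ ?_
  · rintro X ⟨X₁, Y₁, h1, h2, h3⟩ Y hXY hYX
    exact ⟨X₁, Y₁, le_trans' h1 hXY, le_trans' hYX h2, h3⟩
  · intro z
    obtain ⟨X, Y, h1, h2⟩ := h z
    exact ⟨X, ⟨X, Y, le_refl' X, le_refl' X, h2⟩, h1⟩

/-- in every degree of a cone -/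
theorem everyB (hBC : P_BC) (hLB : P_LB) (hMI : P_MI) (hMC : P_MC)
    (G : (ℕ → Bool) → ℕ → Bool) (hG : Measurable G) (z₀ : ℕ → Bool)
    (h : ∀ X, le z₀ X → ¬ le (G X) X ∧ le X (G X) ∧ ¬ le (ch (J X)) (G X)) :
    ∃ z : ℕ → Bool, ∀ k : ℕ, ∃ i j : Code, ∀ X, le z X → ∀ L : Finset Code, L.card ≤ k →
      ∃ X₁ Y₁ : ℕ → Bool, le X₁ X ∧ le X X₁ ∧ Red i X₁ Y₁ ∧ Red j Y₁ X₁ ∧
        ∀ l ∈ L, ¬ Red l (G X₁) (G Y₁) := by
  have h1 : ∀ k : ℕ, ∃ (i j : Code) (z : ℕ → Bool), ∀ X, le z X → ∀ L : Finset Code, L.card ≤ k →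
      Fail G i j L X := by
    intro k
    obtain ⟨i, j, hij⟩ := solB hBC hLB Set.univ MeasurableSet.univ Pool.Agent.R616.DI.cof_univ G hG
      z₀ (fun X _ => h X) k
    have h2 : ∀ L : {L : Finset Code // L.card ≤ k}, ∃ z, ∀ X, le z X → Fail G i j L.1 X := by
      intro L
      refine fail_cone hMI hMC hG fun z => ?_
      obtain ⟨X, -, Y, -, h3⟩ := hij L.1 L.2 z
      exact ⟨X, Y, h3⟩
    choose zL hzL using h2
    obtain ⟨y, hy⟩ := join_cnt zL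
    exact ⟨i, j, y, fun X hX L hL => hzL ⟨L, hL⟩ X (le_trans' (hy ⟨L, hL⟩) hX)⟩
  choose i j zk hzk using h1
  obtain ⟨z, hz⟩ := join_seq zk
  exact ⟨z, fun k => ⟨i k, j k, fun X hX L hL => hzk k X (le_trans' (hz k) hX) L hL⟩⟩

end Pool.Agent.H16R.BO
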