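import Pool.Agent.H16R.BO.Fin
import Pool.Agent.Results.MP_57825d_lc.SinglePair

/-!
One pair of programs and codings, inside the degrees of a cone.
-/

set_option autoImplicit false

namespace Pool.Agent.H16R.BO

open Nat.Partrec (Code)
open Encodable
open Pool.Agent.H639.LU Pool.Agent.H869R3.FN Pool.Agent.Y579.PP Pool.Agent.R616.DI
open Pool.Agent.Helper446.Defs Pool.Agent.Helper446.Oracle

theorem pf_pair (n : ℕ) : ∃ i j : Code, ∀ X, Red i X (pf n X) ∧ Red j (pf n X) X := by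
  have h1 : Computable (fun p : ℕ × Str => bif decide (p.1 < n) then false
      else bif decide (p.1 = n) then true else p.2.getD (p.1 - n - 1) false) := by
    refine (Primrec.cond ((Primrec.nat_lt.decide.comp Primrec.fst (Primrec.const n)))
      (Primrec.const false) (Primrec.cond (Primrec.eq.decide.comp Primrec.fst (Primrec.const n))
        (Primrec.const true) ?_)).to_comp
    exact (Primrec.list_getD false).comp Primrec.snd (Primrec.nat_sub.comp
      (Primrec.nat_sub.comp Primrec.fst (Primrec.const n)) (Primrec.const 1))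
  have h2 : Computable (fun p : ℕ × Str => p.2.getD (p.1 + n + 1) false) :=
    ((Primrec.list_getD false).comp Primrec.snd (Primrec.nat_add.comp
      (Primrec.nat_add.comp Primrec.fst (Primrec.const n)) (Primrec.const 1))).to_comp
  obtain ⟨i, hi⟩ := exists_fun h1 (Computable.succ)
  obtain ⟨j, hj⟩ := exists_fun h2 (u := fun m => m + n + 2)
    ((Primrec.nat_add.comp (Primrec.nat_add.comp Primrec.id (Primrec.const n))
      (Primrec.const 2)).to_comp)
  refine ⟨i, j, fun X => ⟨(hi _ _).2 fun m => ?_, (hj _ _).2 fun m => ?_⟩⟩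
  · show pf n X m = bif decide (m < n) then false else bif decide (m = n) then true
      else (seg X (m + 1)).getD (m - n - 1) false
    unfold pf
    by_cases h3 : m < n
    · simp [h3]
    · by_cases h4 : m = n
      · simp [h4]
      · have h5 : n < m := by omega
        rw [seg_getD _ _ _ (by omega)]
        simp [h3, h4]
  · show X m = (seg (pf n X) (m + n + 2)).getD (m + n + 1) false
    rw [seg_getD _ _ _ (by omega)]
    unfold pf
    have h3 : ¬ m + n + 1 < n := by omega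
    have h4 : ¬ m + n + 1 = n := by omega
    have h5 : m + n + 1 - n - 1 = m := by omega
    simp [h3, h4, h5]

theorem coding_pair {S : ℕ → (ℕ → Bool) → ℕ → Bool} (hS : IsCoding S) (n : ℕ) :
    ∃ i j : Code, ∀ X, Red i X (S n X) ∧ Red j (S n X) X := by
  obtain ⟨a, b, hab⟩ := hS
  obtain ⟨i, j, hij⟩ := pf_pair n
  obtain ⟨κ, -, hκ'⟩ := K7
  exact ⟨κ (i, a), κ (b, j), fun X => ⟨hκ' _ _ _ _ _ (hij X).1 (hab n X).1,
    hκ' _ _ _ _ _ (hab n X).2 (hij X).2⟩⟩

theorem singleB (hMI : P_MI) (hMC : P_MC) (hWM : P_WM) (r : Code) (z₀ : ℕ → Bool)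
    (hr : ∀ X, le z₀ X → ¬ le (ch (W r X)) X ∧ le X (ch (W r X)) ∧ ¬ le (ch (J X)) (ch (W r X))) :
    (∃ (i j : Code) (z : ℕ → Bool), ∀ X, le z X → ∀ L : Finset Code,
      Fail (fun X => ch (W r X)) i j L X) ∨
    ∀ S : ℕ → (ℕ → Bool) → ℕ → Bool, IsCoding S → ∃ z : ℕ → Bool, ∀ k : ℕ,
      {n : ℕ | ∃ X, le z X ∧ ∃ M : Finset Code, M.card ≤ k ∧ ∀ X₁, le X₁ X → le X X₁ →
        (∃ l ∈ M, Red l (ch (W r X₁)) (ch (W r (S n X₁)))) ∧
        ∃ l ∈ M, Red l (ch (W r (S n X₁))) (ch (W r X₁))}.Finite := by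
  have hG : Measurable (fun X : ℕ → Bool => ch (W r X)) := hWM.1 r
  rcases (Pool.Agent.Results.MP_57825d_lc.SinglePair.result.1 r z₀ hr) with ⟨i, j, h⟩ | h
  · left
    have h2 : ∀ L : Finset Code, ∃ z, ∀ X, le z X → Fail (fun X => ch (W r X)) i j L X :=
      fun L => fail_cone hMI hMC hG fun z => h L z
    choose zL hzL using h2
    obtain ⟨y, hy⟩ := join_cnt zL
    exact ⟨i, j, y, fun X hX L => hzL L X (le_trans' (hy L) hX)⟩
  · right
    intro S hS
    have h' := h S hS
    have hcp := coding_pair hS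
    choose a b hab using hcp
    -- the bad cones
    let Good : ℕ → Finset Code → Prop := fun n M => ∃ z : ℕ → Bool, ∀ X : ℕ → Bool, le z X →
      (∃ l ∈ M, Red l (ch (W r X)) (ch (W r (S n X)))) ∧
        ∃ l ∈ M, Red l (ch (W r (S n X))) (ch (W r X))
    have h2 : ∀ p : ℕ × Finset Code, ∃ z : ℕ → Bool, ¬ Good p.1 p.2 → ∀ X, le z X →
        Fail (fun X => ch (W r X)) (a p.1) (b p.1) p.2 X ∨
          Fail (fun X => ch (W r X)) (b p.1) (a p.1) p.2 X := by
      intro p
      by_cases hg : Good p.1 p.2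
      · exact ⟨fun _ => false, fun h => absurd hg h⟩
      have hbad : ∀ z : ℕ → Bool, ∃ X, le z X ∧
          ((∀ l ∈ p.2, ¬ Red l (ch (W r X)) (ch (W r (S p.1 X)))) ∨
            ∀ l ∈ p.2, ¬ Red l (ch (W r (S p.1 X))) (ch (W r X))) := by
        intro z
        by_contra hcon
        push Not at hcon
        exact hg ⟨z, fun X hX => ⟨(hcon X hX).1, (hcon X hX).2⟩⟩
      by_cases h3 : ∀ z : ℕ → Bool, ∃ X, le z X ∧
          ∀ l ∈ p.2, ¬ Red l (ch (W r X)) (ch (W r (S p.1 X)))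
      · obtain ⟨z, hz⟩ := fail_cone hMI hMC hG (i := a p.1) (j := b p.1) (L := p.2) fun z => by
          obtain ⟨X, h4, h5⟩ := h3 z
          exact ⟨X, S p.1 X, h4, (hab p.1 X).1, (hab p.1 X).2, h5⟩
        exact ⟨z, fun _ X hX => Or.inl (hz X hX)⟩
      · push Not at h3
        obtain ⟨z', hz'⟩ := h3
        obtain ⟨z, hz⟩ := fail_cone hMI hMC hG (i := b p.1) (j := a p.1) (L := p.2) fun z => by
          obtain ⟨z₄, h4a, h4b⟩ := join2 z z'
          obtain ⟨X, h4, h5⟩ := hbad z₄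
          rcases h5 with h5 | h5
          · obtain ⟨l, hl, hl'⟩ := hz' X (le_trans' h4b h4)
            exact absurd hl' (h5 l hl)
          · refine ⟨S p.1 X, X, ?_, (hab p.1 X).2, (hab p.1 X).1, h5⟩
            exact le_trans' (le_trans' h4a h4) ((le_iff _ _).2 ⟨_, (hab p.1 X).2⟩)
        exact ⟨z, fun _ X hX => Or.inr (hz X hX)⟩
    choose zp hzp using h2
    obtain ⟨y, hy⟩ := join_cnt zp
    refine ⟨y, fun k => (h' k).subset ?_⟩
    rintro n ⟨X, hX, M, hM, hgood⟩
    by_contra hn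
    have hng : ¬ Good n M := fun hg => hn ⟨M, hM, hg⟩
    rcases hzp (n, M) hng X (le_trans' (hy _) hX) with ⟨X₁, Y₁, g1, g2, g3, g4, g5⟩ |
      ⟨X₁, Y₁, g1, g2, g3, g4, g5⟩
    · have e : Y₁ = S n X₁ := red_unique g3 (hab n X₁).1
      subst e
      obtain ⟨l, hl, hl'⟩ := (hgood X₁ g1 g2).1
      exact g5 l hl hl'
    · have e : X₁ = S n Y₁ := red_unique g4 (hab n Y₁).1
      subst e
      have g6 : le Y₁ X := le_trans' ((le_iff _ _).2 ⟨_, g3⟩) g1
      have g7 : le X Y₁ := le_trans' g2 ((le_iff _ _).2 ⟨_, g4⟩)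
      obtain ⟨l, hl, hl'⟩ := (hgood Y₁ g6 g7).2
      exact g5 l hl hl'

end Pool.Agent.H16R.BO
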