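import Pool.Agent.H16R.BO.Stm
import Pool.Agent.R549.BD.Main

/-!
GM: the game in which player II builds `Y`, decoded by `c` to the moves `A` of player I.
-/

set_option autoImplicit false

namespace Pool.Agent.H16R.BO

open Nat.Partrec (Code)
open Encodable
open Pool.Agent.H639.LU Pool.Agent.H869R3.FN Pool.Agent.Y579.PP Pool.Agent.R616.DI
open Pool.Agent.Helper446.Defs Pool.Agent.Helper446.Oracle
open Pool.Agent.R549.BD

/-- The game tree: positions are finite lists of moves, newest first. -/
def GT : GTree.{0} where
  Pos := List Str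
  len := List.length
  par := List.tail
  root := []
  len_root := rfl
  eq_root := fun _ h => List.length_eq_zero_iff.1 h
  len_par := fun _ => List.length_tail
  succ := fun p => ⟨[] :: p, rfl, rfl⟩

/-- The sigma-algebra of the sets which are Borel in the sense of `BorelT`. -/
@[reducible] def gms : MeasurableSpace (ℕ → List Str) where
  MeasurableSet' A := GT.BorelT A
  measurableSet_empty := by
    have h := GTree.BorelT.fin (T := GT) 0 ∅
    have e : ({x | x 0 ∈ (∅ : Set GT.Pos)} : Set (ℕ → GT.Pos)) = ∅ := by
      ext x; simp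
    rw [e] at h
    exact h
  measurableSet_compl A h := @GTree.BorelT.compl GT A h
  measurableSet_iUnion f h := @GTree.BorelT.iUnion GT f h

theorem gms_iff (A : Set (ℕ → List Str)) : @MeasurableSet _ gms A ↔ GT.BorelT A := Iff.rfl

/-- legal positions after the moves of player II -/
def LegP (c : Code) (p : List Str) : Prop :=
  ∃ y b rest, p = y :: b :: rest ∧ rest.headD [] <+: y ∧
    dec c y = dec c (rest.headD []) ++ [b.headD false]

/-- the sequence played by player I -/
def Aof (x : ℕ → List Str) (n : ℕ) : Bool := ((x (2 * n + 1)).headD []).headD false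

/-- the sequence played by player II -/
def Yof (x : ℕ → List Str) (n : ℕ) : Bool := ((x (2 * n + 2)).headD []).getD n false

theorem meas_Aof : @Measurable _ _ gms _ Aof := by
  let _ := gms
  refine measurable_pi_iff.2 fun n => ?_
  intro s _
  exact (gms_iff _).2 (GTree.BorelT.fin (T := GT) (2 * n + 1)
    {p : List Str | (p.headD []).headD false ∈ s})

theorem meas_Yof : @Measurable _ _ gms _ Yof := by
  let _ := gms
  refine measurable_pi_iff.2 fun n => ?_
  intro s _
  exact (gms_iff _).2 (GTree.BorelT.fin (T := GT) (2 * n + 2)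
    {p : List Str | (p.headD []).getD n false ∈ s})

/-- the plays won by player II -/
def W1 (c : Code) (P : Set ((ℕ → Bool) × (ℕ → Bool))) : Set (ℕ → List Str) :=
  {x | (∀ n, LegP c (x (2 * n + 2))) ∧ (Aof x, Yof x) ∈ P}

theorem borel_W1 (c : Code) {P : Set ((ℕ → Bool) × (ℕ → Bool))} (hP : MeasurableSet P) :
    GT.BorelT (W1 c P)ᶜ := by
  let _ := gms
  have h1 : MeasurableSet {x : ℕ → List Str | ∀ n, LegP c (x (2 * n + 2))} := by
    have e : {x : ℕ → List Str | ∀ n, LegP c (x (2 * n + 2))} =
        ⋂ n, {x | x (2 * n + 2) ∈ {p | LegP c p}} := by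
      ext x; simp
    rw [e]
    exact MeasurableSet.iInter fun n => (gms_iff _).2 (GTree.BorelT.fin (T := GT) _ _)
  have h2 : Measurable (fun x : ℕ → List Str => (Aof x, Yof x)) := meas_Aof.prodMk meas_Yof
  exact (gms_iff _).1 ((h1.inter (h2 hP)).compl)

/-- The play of a strategy of player II against the sequence `A`. -/
def plA (s : List Str → List Str) (A : ℕ → Bool) : ℕ → List Str
  | 0 => []
  | n + 1 => if n % 2 = 1 then s (plA s A n) else [A (n / 2)] :: plA s A n

theorem plA_even (s : List Str → List Str) (A : ℕ → Bool) (n : ℕ) :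
    plA s A (2 * n + 2) = s ([A n] :: plA s A (2 * n)) := by
  have h1 : (2 * n + 1) % 2 = 1 := by omega
  have h2 : ¬ (2 * n) % 2 = 1 := by omega
  have h3 : 2 * n / 2 = n := by omega
  show plA s A (2 * n + 1 + 1) = _
  simp only [plA, h1, h2, h3, if_true, if_false]

theorem plA_odd (s : List Str → List Str) (A : ℕ → Bool) (n : ℕ) :
    plA s A (2 * n + 1) = [A n] :: plA s A (2 * n) := by
  have h2 : ¬ (2 * n) % 2 = 1 := by omega
  have h3 : 2 * n / 2 = n := by omega
  simp only [plA, h2, h3, if_false]

theorem plA_play (s : List Str → List Str) (hs : GT.IsStrat s) (A : ℕ → Bool) :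
    GT.IsPlay (plA s A) := by
  have hlen : ∀ n, (plA s A n).length = n := by
    intro n
    induction n with
    | zero => rfl
    | succ n ih =>
      simp only [plA]
      split_ifs
      · have := (hs (plA s A n)).2
        change (s (plA s A n)).length = (plA s A n).length + 1 at this
        rw [this, ih]
      · rw [List.length_cons, ih]
  refine ⟨hlen, ?_⟩
  intro n
  change (plA s A (n + 1)).tail = plA s A n
  simp only [plA]
  split_ifs
  · exact (hs (plA s A n)).1
  · rfl

theorem plA_cons (s : List Str → List Str) (A : ℕ → Bool) : GT.Cons 1 s (plA s A) := by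
  intro n hn
  simp only [plA]
  rw [if_pos hn]

theorem seg_s (X : ℕ → Bool) (s : ℕ) : seg X (s + 1) = seg X s ++ [X s] := G2_seg_succ X s

theorem seg_of (η : Str) : seg (fun n => η.getD n false) η.length = η := by
  apply List.ext_getElem
  · simp [seg]
  · intro i h1 h2
    simp [seg, List.getElem?_eq_getElem h2]

/-- the positions of player II -/
def pos (s : List Str → List Str) (η : Str) : List Str := η.foldl (fun p b => s ([b] :: p)) []

theorem pos_snoc (s : List Str → List Str) (η : Str) (b : Bool) :
    pos s (η ++ [b]) = s ([b] :: pos s η) := by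
  unfold pos
  rw [List.foldl_append]
  rfl

theorem pos_seg (s : List Str → List Str) (A : ℕ → Bool) (n : ℕ) :
    pos s (seg A n) = plA s A (2 * n) := by
  induction n with
  | zero => rfl
  | succ n ih =>
    rw [seg_s, pos_snoc, ih]
    exact (plA_even s A n).symm

theorem strat_form {s : List Str → List Str} (hs : GT.IsStrat s) (p : List Str) :
    s p = (s p).headD [] :: p := by
  have h1 : (s p).tail = p := (hs p).1
  have h2 : (s p).length = p.length + 1 := (hs p).2
  cases h : s p with
  | nil => rw [h] at h2; simp at h2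
  | cons a l =>
    rw [h] at h1
    simp only [List.tail_cons] at h1
    rw [h1]
    rfl

theorem gm_two {c : Code} {P : Set ((ℕ → Bool) × (ℕ → Bool))} {s : List Str → List Str}
    (hs : GT.IsStrat s) (hw : ∀ x, GT.IsPlay x → GT.Cons 1 s x → x ∈ W1 c P) :
    ∃ G : Str → Str, Tr c G ∧ ∀ A, (A, br G A) ∈ P := by
  have hpos : ∀ (A : ℕ → Bool), plA s A ∈ W1 c P := fun A =>
    hw _ (plA_play s hs A) (plA_cons s A)
  have hstep : ∀ (A : ℕ → Bool) (n : ℕ),
      (pos s (seg A n)).headD [] <+: (pos s (seg A (n + 1))).headD [] ∧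
      dec c ((pos s (seg A (n + 1))).headD []) = dec c ((pos s (seg A n)).headD []) ++ [A n] := by
    intro A n
    obtain ⟨y, b, rest, h1, h2, h3⟩ := (hpos A).1 n
    rw [plA_even, strat_form hs] at h1
    simp only [List.cons.injEq] at h1
    obtain ⟨e1, e2, e3⟩ := h1
    have e4 : pos s (seg A n) = rest := by rw [pos_seg, e3]
    have e5 : (pos s (seg A (n + 1))).headD [] = y := by
      rw [pos_seg, show 2 * (n + 1) = 2 * n + 2 by ring, plA_even]
      exact e1
    rw [e4, e5]
    refine ⟨h2, ?_⟩
    rw [h3, ← e2]
    rfl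
  have hgen : ∀ (η : Str) (b : Bool), ∃ A : ℕ → Bool, seg A η.length = η ∧
      seg A (η.length + 1) = η ++ [b] ∧ A η.length = b := by
    intro η b
    refine ⟨fun n => (η ++ [b]).getD n false, ?_, ?_, ?_⟩
    · have h1 := seg_of (η ++ [b])
      have h2 : (η ++ [b]).length = η.length + 1 := by simp
      rw [h2, seg_s] at h1
      exact (List.append_inj' h1 rfl).1
    · have h1 := seg_of (η ++ [b])
      have h2 : (η ++ [b]).length = η.length + 1 := by simp
      rwa [h2] at h1
    · simp
  refine ⟨fun η => (pos s η).headD [], ⟨?_, ?_⟩, ?_⟩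
  · intro η b
    obtain ⟨A, h1, h2, h3⟩ := hgen η b
    have h4 := (hstep A η.length).1
    rwa [h1, h2] at h4
  · intro η
    induction η using List.reverseRecOn with
    | nil => exact D1.1 c
    | append_singleton η b ih =>
      obtain ⟨A, h1, h2, h3⟩ := hgen η b
      have h4 := (hstep A η.length).2
      rw [h1, h2, h3] at h4
      rw [h4, ih]
  · intro A
    have h1 := (hpos A).2
    have e1 : Aof (plA s A) = A := by
      funext n
      unfold Aof
      rw [plA_odd]
      rfl
    have e2 : Yof (plA s A) = br (fun η => (pos s η).headD []) A := by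
      funext n
      unfold Yof br
      show ((plA s A (2 * n + 2)).headD []).getD n false =
        ((pos s (seg A (n + 1))).headD []).getD n false
      rw [pos_seg]
      rfl
    rw [e1, e2] at h1
    exact h1

theorem gm_one {c : Code} {P : Set ((ℕ → Bool) × (ℕ → Bool))} {s : List Str → List Str}
    (hs : GT.IsStrat s) (hw : ∀ x, GT.IsPlay x → GT.Cons 0 s x → x ∉ W1 c P) :
    ∃ β : Str → Bool, ∀ A Y, Follows c β A Y → (A, Y) ∉ P := by
  classical
  obtain ⟨d1, d2, d3, d4⟩ := D1
  obtain ⟨H, hH0, hH1⟩ := M3_rec ([] : List Str) (fun p z =>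
    if (dec c z.dropLast).length < (dec c z).length then z :: s p else p)
  refine ⟨fun x => ((s (H x)).headD []).headD false, fun A Y hF => ?_⟩
  obtain ⟨hF1, hF2⟩ := hF
  have hex : ∀ n, ∃ t, (dec c (seg Y t)).length = n := by
    intro n
    obtain ⟨t, ht⟩ := hF1 n
    exact ⟨t, by rw [ht, seg_len]⟩
  have hmono : ∀ s t, s ≤ t → (dec c (seg Y s)).length ≤ (dec c (seg Y t)).length :=
    fun s t hst => (d3 c _ _ (G2_seg_le Y hst)).length_le
  let T : ℕ → ℕ := fun n => Nat.find (hex n)
  have hT1 : ∀ n, (dec c (seg Y (T n))).length = n := fun n => Nat.find_spec (hex n)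
  have hT2 : ∀ n t', t' < T n → (dec c (seg Y t')).length ≠ n :=
    fun n t' ht' => Nat.find_min (hex n) ht'
  have hT3 : ∀ n t', t' < T n → (dec c (seg Y t')).length < n := by
    intro n t' ht'
    have h1 := hmono t' (T n) ht'.le
    rw [hT1] at h1
    exact lt_of_le_of_ne h1 (hT2 n t' ht')
  have hTA : ∀ n, dec c (seg Y (T n)) = seg A n := by
    intro n
    obtain ⟨t, ht⟩ := hF1 n
    have h1 : T n ≤ t := Nat.find_min' (hex n) (by rw [ht, seg_len])
    have h2 := d3 c _ _ (G2_seg_le Y h1)
    rw [ht] at h2
    exact h2.eq_of_length (by rw [hT1, seg_len])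
  have hT0 : T 0 = 0 := Nat.le_zero.1 (Nat.find_min' (hex 0) (by
    have : seg Y 0 = [] := rfl
    rw [this, d1]; rfl))
  -- the positions
  let q : ℕ → List Str := fun n => Nat.rec [] (fun n p => seg Y (T (n + 1)) :: s p) n
  have hq0 : q 0 = [] := rfl
  have hq1 : ∀ n, q (n + 1) = seg Y (T (n + 1)) :: s (q n) := fun n => rfl
  have hHq : ∀ t, H (seg Y t) = q (dec c (seg Y t)).length := by
    intro t
    induction t with
    | zero =>
      have : seg Y 0 = [] := rfl
      rw [this, hH0, d1]
      rfl
    | succ t ih =>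
      rw [seg_s, hH1, ← seg_s]
      have e1 : (seg Y (t + 1)).dropLast = seg Y t := by rw [seg_s]; simp
      rw [e1]
      have h2 : (dec c (seg Y (t + 1))).length ≤ (dec c (seg Y t)).length + 1 := by
        rw [seg_s, d2, List.length_append]
        have : (nxt c (seg Y t ++ [Y t]) (dec c (seg Y t)).length).toList.length ≤ 1 := by
          cases nxt c (seg Y t ++ [Y t]) (dec c (seg Y t)).length <;> simp
        omega
      have h3 := hmono t (t + 1) (by omega)
      split_ifs with h4
      · have h5 : (dec c (seg Y (t + 1))).length = (dec c (seg Y t)).length + 1 := by omega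
        rw [h5, hq1, ih]
        congr 2
        have h6 : T ((dec c (seg Y t)).length + 1) ≤ t + 1 := Nat.find_min' (hex _) h5
        have h7 : t < T ((dec c (seg Y t)).length + 1) := by
          by_contra hcon
          push Not at hcon
          have := hmono _ _ hcon
          rw [hT1] at this
          omega
        omega
      · have h5 : (dec c (seg Y (t + 1))).length = (dec c (seg Y t)).length := by omega
        rw [h5, ih]
  have hqT : ∀ n, H (seg Y (T n)) = q n := fun n => by rw [hHq, hT1]
  have hqlen : ∀ n, (q n).length = 2 * n := by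
    intro n
    induction n with
    | zero => rfl
    | succ n ih =>
      have h2 : (s (q n)).length = (q n).length + 1 := (hs (q n)).2
      rw [hq1, List.length_cons, h2, ih]
      ring
  have hqhead : ∀ n, (q n).headD [] = seg Y (T n) := by
    intro n
    cases n with
    | zero => rw [hq0, hT0]; rfl
    | succ n => rw [hq1]; rfl
  have hb : ∀ n, A n = ((s (q n)).headD []).headD false := by
    intro n
    have h1 := hF2 n (T n) (hT1 n) (hT3 n)
    simp only [hqT] at h1
    exact h1
  let x : ℕ → List Str := fun m => if m % 2 = 0 then q (m / 2) else s (q (m / 2))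
  have hx0 : ∀ n, x (2 * n) = q n := by
    intro n
    have h1 : (2 * n) % 2 = 0 := by omega
    have h2 : 2 * n / 2 = n := by omega
    simp only [x, h1, h2, if_true]
  have hx1 : ∀ n, x (2 * n + 1) = s (q n) := by
    intro n
    have h1 : ¬ (2 * n + 1) % 2 = 0 := by omega
    have h2 : (2 * n + 1) / 2 = n := by omega
    simp only [x, h1, h2, if_false]
  have hx2 : ∀ n, x (2 * n + 2) = q (n + 1) := fun n => hx0 (n + 1)
  have hplay : GT.IsPlay x := by
    refine ⟨fun m => ?_, fun m => ?_⟩
    · show (x m).length = m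
      rcases Nat.even_or_odd' m with ⟨n, rfl | rfl⟩
      · rw [hx0, hqlen]
      · have h2 : (s (q n)).length = (q n).length + 1 := (hs (q n)).2
        rw [hx1, h2, hqlen]
    · show (x (m + 1)).tail = x m
      rcases Nat.even_or_odd' m with ⟨n, rfl | rfl⟩
      · rw [hx1, hx0]
        exact (hs (q n)).1
      · rw [show 2 * n + 1 + 1 = 2 * n + 2 by ring, hx2, hx1, hq1]
        rfl
  have hcons : GT.Cons 0 s x := by
    intro m hm
    obtain ⟨n, rfl⟩ : ∃ n, m = 2 * n := ⟨m / 2, by omega⟩
    rw [hx1, hx0]
  have h1 := hw x hplay hcons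
  intro hAY
  apply h1
  refine ⟨fun n => ?_, ?_⟩
  · rw [hx2, hq1]
    refine ⟨seg Y (T (n + 1)), (s (q n)).headD [], q n, ?_, ?_, ?_⟩
    · rw [← strat_form hs]
    · rw [hqhead]
      refine G2_seg_le Y ?_
      by_contra hcon
      push Not at hcon
      have := hmono _ _ hcon.le
      rw [hT1, hT1] at this
      omega
    · rw [hqhead, hTA, hTA, seg_s, hb n]
  · have e1 : Aof x = A := by
      funext n
      unfold Aof
      rw [hx1, ← hb]
    have e2 : Yof x = Y := by
      funext n
      unfold Yof
      rw [hx2]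
      have h5 := hqhead (n + 1)
      show ((q (n + 1)).headD ([] : Str)).getD n false = Y n
      rw [h5]
      have h3 : n + 1 ≤ T (n + 1) := by
        have h4 := d4 c (seg Y (T (n + 1)))
        rw [hT1, seg_len] at h4
        exact h4
      exact seg_getD _ _ _ (by omega)
    rw [e1, e2]
    exact hAY

theorem GM : P_GM := by
  intro P hP c
  rcases borelDet GT _ (borel_W1 c hP) with ⟨s, hs, hw⟩ | ⟨s, hs, hw⟩
  · right
    exact gm_one hs fun x h1 h2 h3 => hw x h1 h2 h3
  · left
    exact gm_two hs fun x h1 h2 => Set.notMem_compl_iff.1 (hw x h1 h2)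

end Pool.Agent.H16R.BO
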