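import Pool.Agent.H16R.BO.Stm

/-! [LB], [AB]: the local theorem for Borel operations, and operations with `k` candidates. -/

set_option autoImplicit false

namespace Pool.Agent.H16R.BO

open Nat.Partrec (Code)
open Encodable
open Pool.Agent.H639.LU Pool.Agent.H869R3.FN Pool.Agent.Y579.PP Pool.Agent.R616.DI
open Pool.Agent.Helper446.Defs Pool.Agent.Helper446.Oracle

/-- [LB] -/
theorem LB (ch' : P_CH) (cc : P_CC) (lg : P_LG) (dp : P_DP) : P_LB := by
  intro G hG F hF hF' hN k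
  obtain ⟨κ, hκ, hκ'⟩ := K7
  obtain ⟨e, g, ν, b, hgc, hgk⟩ := ch' G hG F hF hF' hN k
  obtain ⟨r, hch, hr1, hr2⟩ := cc G k e g ν b hgc
  obtain ⟨d, hd⟩ := dp G k e g ν b r hgc hr1 hr2
  obtain ⟨z₁, hz₁⟩ := lg r k e g (fun q => q) hch F hF hgk
  refine ⟨z₁, fun X hX V hV e₁ hb hred => ?_⟩
  have hκd : Computable (fun x : ℕ × (Code × Code × Code) =>
      encode ((x.2.1, x.2.2.1, κ (x.2.2.2, d)) : Code × Code × Code)) := by
    refine Computable.encode.comp (Computable.pair (by fun_prop) (Computable.pair (by fun_prop) ?_))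
    exact hκ.comp (Computable.pair (by fun_prop) (Computable.const d))
  have hS : REIn (St V) (fun n : ℕ => ∃ q : Code × Code × Code,
      encode ((q.1, q.2.1, κ (q.2.2, d)) : Code × Code × Code) = n ∧ W e₁ V (encode q)) := by
    refine REIn.ex (S := fun (n : ℕ) (q : Code × Code × Code) =>
      encode ((q.1, q.2.1, κ (q.2.2, d)) : Code × Code × Code) = n ∧ W e₁ V (encode q))
      (REIn.and ?_ ?_)
    · exact REIn.of_re (Pool.Agent.Helper446.RE.eq hκd (by fun_prop))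
    · exact REIn.comp (S := W e₁ V) ((K5 K2).1 e₁ V) (by fun_prop)
  obtain ⟨e', he'⟩ := K10 V _ hS
  have key : ∀ i j l : Code, W e' V (encode (i, j, l)) ↔
      ∃ l₀, κ (l₀, d) = l ∧ W e₁ V (encode (i, j, l₀)) := by
    intro i j l
    rw [← he']
    constructor
    · rintro ⟨⟨i', j', l'⟩, h1, h2⟩
      have h3 := encode_injective h1
      simp only [Prod.mk.injEq] at h3
      obtain ⟨rfl, rfl, h4⟩ := h3
      exact ⟨l', h4, h2⟩
    · rintro ⟨l₀, rfl, h2⟩
      exact ⟨(i, j, l₀), rfl, h2⟩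
  refine hz₁ X hX V hV e' ?_ ?_
  · intro i j
    have h1 : {l : Code | W e' V (encode (i, j, l))} =
        (fun l₀ => κ (l₀, d)) '' {l : Code | W e₁ V (encode (i, j, l))} := by
      ext l
      simp only [Set.mem_ofPred_eq, Set.mem_image]
      rw [key]
      constructor
      · rintro ⟨l₀, h1, h2⟩
        exact ⟨l₀, h2, h1⟩
      · rintro ⟨l₀, h1, h2⟩
        exact ⟨l₀, h2, h1⟩
    rw [h1]
    exact (Set.encard_image_le _ _).trans (hb i j)
  · rintro i j Y hY ⟨q, hq⟩ hi hj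
    obtain ⟨l, hl, hlr⟩ := hred i j Y hY hi hj
    exact ⟨κ (l, d), (key i j _).2 ⟨l, rfl, hl⟩, hκ' _ _ _ _ _ hlr (hd q Y hq)⟩

/-- [AB] -/
theorem AB (lb : P_LB) : P_AB := by
  classical
  intro F F₁ hF₁ hC hC' G hG hN z₂ hGX k u hu hinv
  obtain ⟨z₁, hz₁⟩ := lb G hG F₁ hC hC' hN k
  refine ⟨mu3 u z₁ z₂, fun X hXF hX => ?_⟩
  have h2 : le z₂ X := le_trans' (K4.2.2.2 (mu3 u z₁ z₂) z₂
    (fun n => encode ((2, (Code.zero, Code.zero, Code.zero), n) :
      ℕ × (Code × Code × Code) × ℕ)) (by fun_prop) (fun n => by rw [mu3_2])) hX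
  have h1 : le z₁ X := le_trans' (K4.2.2.2 (mu3 u z₁ z₂) z₁
    (fun n => encode ((1, (Code.zero, Code.zero, Code.zero), n) :
      ℕ × (Code × Code × Code) × ℕ)) (by fun_prop) (fun n => by rw [mu3_1])) hX
  have hXV := hGX X hXF h2
  set V := G X with hV
  have hmu : REIn (St V) (fun n => n ∈ St (mu3 u z₁ z₂)) :=
    (turingReducible_iff.1 (le_trans' hX hXV)).1
  have hS : REIn (St V) (fun n : ℕ => ∃ q : Code × Code × Code, encode q = n ∧
      q.2.2 ∈ u q.1 q.2.1) := by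
    refine REIn.ex (S := fun (n : ℕ) (q : Code × Code × Code) => encode q = n ∧
      q.2.2 ∈ u q.1 q.2.1) (REIn.and ?_ ?_)
    · exact REIn.of_re (Pool.Agent.Helper446.RE.eq (by fun_prop) (by fun_prop))
    · have h4 : REIn (St V) (fun x : ℕ × (Code × Code × Code) =>
          encode ((0, x.2, 0) : ℕ × (Code × Code × Code) × ℕ) ∈ St (mu3 u z₁ z₂)) :=
        REIn.comp (S := fun n => n ∈ St (mu3 u z₁ z₂)) hmu (by fun_prop)
      refine h4.of_eq fun x => ?_
      obtain ⟨x1, i, j, l⟩ := x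
      change mu3 u z₁ z₂ _ = true ↔ _
      rw [mu3_u]
  obtain ⟨e, he⟩ := K10 V _ hS
  have he' : ∀ i j l : Code, W e V (encode (i, j, l)) ↔ l ∈ u i j := by
    intro i j l
    rw [← he]
    constructor
    · rintro ⟨q, hq, hl⟩
      have : q = (i, j, l) := encode_injective hq
      subst this
      exact hl
    · intro hl
      exact ⟨(i, j, l), rfl, hl⟩
  refine hz₁ X h1 V hXV e ?_ ?_
  · intro i j
    have h5 : {l : Code | W e V (encode (i, j, l))} = ↑(u i j) := by
      ext l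
      simp only [Set.mem_ofPred_eq, Finset.mem_coe]
      exact he' i j l
    rw [h5, Set.encard_coe_eq_coe_finsetCard]
    exact_mod_cast hu i j
  · intro i j Y hYF hi hj
    obtain ⟨l, hl, hlr⟩ := hinv X hXF h2 i j Y (hF₁ hYF) hi hj
    exact ⟨l, (he' i j _).2 hl, hlr⟩

end Pool.Agent.H16R.BO
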