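import Pool.Agent.H16R.BO.Stm

/-! [MS], [WM], [MI]: programs, enumerations and the jump are Borel. -/

set_option autoImplicit false

namespace Pool.Agent.H16R.BO

open Nat.Partrec (Code)
open Encodable
open Pool.Agent.H639.LU Pool.Agent.H869R3.FN Pool.Agent.Y579.PP Pool.Agent.R616.DI
open Pool.Agent.Helper446.Defs Pool.Agent.Helper446.Oracle

namespace MSL

/-- the set of points with a given initial segment -/
theorem meas_seg_eq (σ : Str) (s : ℕ) : MeasurableSet {X : ℕ → Bool | seg X s = σ} := by
  by_cases h : σ.length = s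
  · have h1 : {X : ℕ → Bool | seg X s = σ} = ⋂ i ∈ Finset.range s, {X | X i = σ.getD i false} := by
      ext X
      simp only [Set.mem_ofPred_eq, Set.mem_iInter, Finset.mem_range]
      constructor
      · intro hX i hi
        rw [← hX, seg_getD _ _ _ hi]
      · intro hX
        apply List.ext_getElem?
        intro i
        rw [seg_get]
        split_ifs with hi
        · rw [hX i hi, List.getD_eq_getElem?_getD]
          have h2 : i < σ.length := by omega
          rw [List.getElem?_eq_getElem h2]
          rfl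
        · rw [List.getElem?_eq_none (by omega)]
    rw [h1]
    refine Finset.measurableSet_biInter _ fun i _ => ?_
    exact (measurable_pi_apply i : Measurable (fun X : ℕ → Bool => X i))
      (measurableSet_singleton (σ.getD i false))
  · have h1 : {X : ℕ → Bool | seg X s = σ} = ∅ := by
      ext X
      simp only [Set.mem_ofPred_eq, Set.mem_empty_iff_false, iff_false]
      intro hX
      apply h
      rw [← hX, seg_len]
    rw [h1]
    exact MeasurableSet.empty

/-- a property of an initial segment -/
theorem meas_seg (P : Str → Prop) (s : ℕ) : MeasurableSet {X : ℕ → Bool | P (seg X s)} := by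
  have h1 : {X : ℕ → Bool | P (seg X s)} = ⋃ σ : {σ : Str // P σ}, {X | seg X s = σ.1} := by
    ext X
    simp only [Set.mem_ofPred_eq, Set.mem_iUnion]
    constructor
    · intro h
      exact ⟨⟨_, h⟩, rfl⟩
    · rintro ⟨⟨σ, hσ⟩, h⟩
      change seg X s = σ at h
      rw [h]
      exact hσ
  rw [h1]
  exact MeasurableSet.iUnion fun σ => meas_seg_eq σ.1 s

/-- a property of some initial segment -/
theorem meas_ex (P : ℕ → Str → Prop) : MeasurableSet {X : ℕ → Bool | ∃ s, P s (seg X s)} := by
  have h1 : {X : ℕ → Bool | ∃ s, P s (seg X s)} = ⋃ s, {X | P s (seg X s)} := by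
    ext X
    simp
  rw [h1]
  exact MeasurableSet.iUnion fun s => meas_seg (P s) s

open Classical in
/-- maps given by properties -/
theorem meas_map {α : Type} [MeasurableSpace α] (P : α → ℕ → Prop)
    (hP : ∀ n, MeasurableSet {a | P a n}) : Measurable (fun a n => decide (P a n)) := by
  rw [measurable_pi_iff]
  intro n
  refine measurable_to_bool ?_
  have h1 : (fun a => decide (P a n)) ⁻¹' {true} = {a | P a n} := by
    ext a
    simp
  rw [h1]
  exact hP n

theorem meas_red (c : Code) :
    MeasurableSet {p : (ℕ → Bool) × (ℕ → Bool) | Red c p.1 p.2} := by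
  have h1 : {p : (ℕ → Bool) × (ℕ → Bool) | Red c p.1 p.2} = ⋂ n : ℕ, ⋂ v : ℕ,
      {p : (ℕ → Bool) × (ℕ → Bool) | (∃ s : ℕ, v ∈ c.eval (encode (n, seg p.1 s))) ↔
        v = (p.2 n).toNat} := by
    ext p
    simp only [Set.mem_ofPred_eq, Set.mem_iInter]
    rfl
  rw [h1]
  refine MeasurableSet.iInter fun n => MeasurableSet.iInter fun v => ?_
  refine MeasurableSet.iff ?_ ?_
  · exact measurable_fst (meas_ex fun s σ => v ∈ c.eval (encode (n, σ)))
  · have h2 : MeasurableSet {Y : ℕ → Bool | v = (Y n).toNat} := by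
      have h3 : {Y : ℕ → Bool | v = (Y n).toNat} = (fun Y : ℕ → Bool => Y n) ⁻¹'
          {b | v = b.toNat} := rfl
      rw [h3]
      exact measurable_pi_apply n (Set.Finite.measurableSet (Set.toFinite _))
    exact measurable_snd h2

open Classical in
/-- the output of a program -/
noncomputable def outp (c : Code) (X : ℕ → Bool) (n : ℕ) : Bool :=
  decide (∃ s : ℕ, 1 ∈ c.eval (encode (n, seg X s)))

theorem meas_outp (c : Code) : Measurable (outp c) :=
  meas_map _ fun n => meas_ex fun _ σ => 1 ∈ c.eval (encode (n, σ))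

theorem outp_eq {c : Code} {X Y : ℕ → Bool} (h : Red c X Y) : Y = outp c X := by
  classical
  funext n
  have h1 := h n 1
  unfold outp
  cases hY : Y n with
  | true =>
    rw [hY] at h1
    exact (decide_eq_true (h1.2 rfl)).symm
  | false =>
    rw [hY] at h1
    refine (decide_eq_false fun h2 => ?_).symm
    exact absurd (h1.1 h2) (by decide)

/-- Turing reducibility between measurable maps -/
theorem meas_le {α : Type} [MeasurableSpace α] {f g : α → ℕ → Bool} (hf : Measurable f)
    (hg : Measurable g) : MeasurableSet {a | le (f a) (g a)} := by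
  have h1 : {a | le (f a) (g a)} = ⋃ c : Code, {a | Red c (g a) (f a)} := by
    ext a
    simp only [Set.mem_ofPred_eq, Set.mem_iUnion]
    exact le_iff (g a) (f a)
  rw [h1]
  exact MeasurableSet.iUnion fun c => (hg.prodMk hf) (meas_red c)

end MSL

open MSL

/-- [MS] -/
theorem MS : P_MS :=
  ⟨meas_red, fun c => ⟨outp c, meas_outp c, fun _ _ h => outp_eq h⟩⟩

/-- [WM] -/
theorem WM : P_WM := by
  refine ⟨fun r => ?_, ?_⟩
  · exact meas_map _ fun n => meas_ex fun _ σ => (r.eval (encode (n, σ))).Dom
  · exact meas_map _ fun p => meas_ex fun _ σ =>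
      ((Denumerable.ofNat Code p.unpair.1).eval (encode (p.unpair.2, σ))).Dom

/-- [MI] -/
theorem MI : P_MI := by
  intro G hG i j L
  have h1 : {X : ℕ → Bool | ∃ X₁ Y₁ : ℕ → Bool, le X₁ X ∧ le X X₁ ∧ Red i X₁ Y₁ ∧
      Red j Y₁ X₁ ∧ ∀ l ∈ L, ¬ Red l (G X₁) (G Y₁)} = ⋃ c : Code,
      {X : ℕ → Bool | Red c X (outp c X) ∧ le X (outp c X) ∧
        Red i (outp c X) (outp i (outp c X)) ∧ Red j (outp i (outp c X)) (outp c X) ∧
        ∀ l ∈ L, ¬ Red l (G (outp c X)) (G (outp i (outp c X)))} := by
    ext X
    simp only [Set.mem_ofPred_eq, Set.mem_iUnion]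
    constructor
    · rintro ⟨X₁, Y₁, a1, a2, a3, a4, a5⟩
      obtain ⟨c, hc⟩ := (le_iff X X₁).1 a1
      have e1 : X₁ = outp c X := outp_eq hc
      subst e1
      have e2 : Y₁ = outp i (outp c X) := outp_eq a3
      subst e2
      exact ⟨c, hc, a2, a3, a4, a5⟩
    · rintro ⟨c, a1, a2, a3, a4, a5⟩
      exact ⟨_, _, (le_iff _ _).2 ⟨c, a1⟩, a2, a3, a4, a5⟩
  rw [h1]
  refine MeasurableSet.iUnion fun c => ?_
  have m1 : Measurable (outp c) := meas_outp c
  have m2 : Measurable (fun X => outp i (outp c X)) := (meas_outp i).comp m1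
  have m3 : Measurable (fun X => G (outp c X)) := hG.comp m1
  have m4 : Measurable (fun X => G (outp i (outp c X))) := hG.comp m2
  refine MeasurableSet.inter ((measurable_id.prodMk m1) (meas_red c)) ?_
  refine MeasurableSet.inter (meas_le measurable_id m1) ?_
  refine MeasurableSet.inter ((m1.prodMk m2) (meas_red i)) ?_
  refine MeasurableSet.inter ((m2.prodMk m1) (meas_red j)) ?_
  have h2 : {X : ℕ → Bool | ∀ l ∈ L, ¬ Red l (G (outp c X)) (G (outp i (outp c X)))} =
      ⋂ l ∈ L, {X | ¬ Red l (G (outp c X)) (G (outp i (outp c X)))} := by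
    ext X
    simp
  have h3 : MeasurableSet {X : ℕ → Bool | ∀ l ∈ L,
      ¬ Red l (G (outp c X)) (G (outp i (outp c X)))} := by
    rw [h2]
    exact Finset.measurableSet_biInter _ fun l _ => ((m3.prodMk m4) (meas_red l)).compl
  exact h3

end Pool.Agent.H16R.BO
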