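import Pool.Agent.H16R.BO.Stm

/-! [PR]: a program from two enumerations. -/

set_option autoImplicit false

namespace Pool.Agent.H16R.BO

open Nat.Partrec (Code)
open Encodable
open Pool.Agent.H639.LU Pool.Agent.H869R3.FN Pool.Agent.Y579.PP Pool.Agent.R616.DI
open Pool.Agent.Helper446.Defs Pool.Agent.Helper446.Oracle

namespace PRL

/-- a true digit at the odd place given by the length of `σ` -/
def dg (c : Code) (σ : Str) : Bool := (dec c σ).getD (2 * σ.length.unpair.1 + 1) false

theorem dg_comp {f : ℕ × Str → Code} (hf : Computable f) :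
    Computable (fun p : ℕ × Str => dg (f p) p.2) := by
  have e1 : Computable (fun p : ℕ × Str => dec (f p) p.2) :=
    c2.comp (f := fun p : Code × Str => dec p.1 p.2) (g := fun p : ℕ × Str => (f p, p.2))
      (hf.pair Computable.snd)
  have e2 : Computable (fun p : ℕ × Str => (p.2.length.unpair).1) :=
    Computable.fst.comp (Computable.unpair.comp (Computable.list_length.comp Computable.snd))
  have e3 : Computable (fun p : ℕ × Str => 2 * (p.2.length.unpair).1 + 1) :=
    Computable.succ.comp ((Primrec.nat_mul.to_comp).comp (Computable.const 2) e2)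
  exact ((Primrec.list_getD false).to_comp).comp e1 e3

theorem dg_iff {c : Code} {X A : ℕ → Bool} (h : Red c X A) :
    (∃ s, dg c (seg X s) = true) ↔ od A := by
  constructor
  · rintro ⟨s, hs⟩
    obtain ⟨k, hk⟩ := dec_seg h s
    unfold dg at hs
    rw [hk] at hs
    by_cases h1 : 2 * (seg X s).length.unpair.1 + 1 < k
    · rw [seg_getD _ _ _ h1] at hs
      exact ⟨_, hs⟩
    · have h2 : (seg A k).getD (2 * (seg X s).length.unpair.1 + 1) false = false := by
        rw [List.getD_eq_getElem?_getD, seg_get, if_neg h1]
        rfl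
      rw [h2] at hs
      exact absurd hs (by decide)
  · rintro ⟨n, hn⟩
    obtain ⟨t₀, ht₀⟩ := dec_long h (2 * n + 2)
    refine ⟨Nat.pair n t₀, ?_⟩
    unfold dg
    rw [seg_len, Nat.unpair_pair]
    obtain ⟨k, hk⟩ := dec_seg h (Nat.pair n t₀)
    have h1 := ht₀ (Nat.pair n t₀) (Nat.right_le_pair n t₀)
    rw [hk, seg_len] at h1
    rw [hk, seg_getD _ _ _ (by omega)]
    exact hn

end PRL

open PRL

/-- [PR] -/
theorem PR : P_PR := by
  intro d hd
  have e0 : Computable (fun p : ℕ × Str => d (2 * p.1)) :=
    hd.comp ((Primrec.nat_mul.to_comp).comp (Computable.const 2) Computable.fst)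
  have e1 : Computable (fun p : ℕ × Str => d (2 * p.1 + 1)) :=
    hd.comp (Computable.succ.comp
      ((Primrec.nat_mul.to_comp).comp (Computable.const 2) Computable.fst))
  obtain ⟨c, hc⟩ := red_of_fun (Computable.cond (dg_comp e0) (Computable.const (some 1))
    (Computable.cond (dg_comp e1) (Computable.const (some 0)) (Computable.const none)))
  refine ⟨c, fun Y V h => (hc Y V).2 fun n v => ?_⟩
  obtain ⟨⟨A, hA, hAV⟩, A', hA', hAV'⟩ := h n
  have k1 := (dg_iff hA).trans hAV
  have k2 := (dg_iff hA').trans hAV'
  cases hV : V n with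
  | true =>
    have g0 : ∀ s, dg (d (2 * n + 1)) (seg Y s) = false := fun s => by
      by_contra hcon
      have := k2.1 ⟨s, by simpa using hcon⟩
      rw [hV] at this
      exact absurd this (by decide)
    obtain ⟨s₀, hs₀⟩ := k1.2 hV
    constructor
    · rintro ⟨s, hs⟩
      simp only [g0 s, cond_false] at hs
      cases g1 : dg (d (2 * n)) (seg Y s) with
      | true =>
        simp only [g1, cond_true] at hs
        exact (Option.some_inj.1 hs).symm
      | false =>
        simp only [g1, cond_false] at hs
        exact absurd hs (by simp)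
    · rintro rfl
      exact ⟨s₀, by simp only [hs₀, cond_true]; rfl⟩
  | false =>
    have g0 : ∀ s, dg (d (2 * n)) (seg Y s) = false := fun s => by
      by_contra hcon
      have := k1.1 ⟨s, by simpa using hcon⟩
      rw [hV] at this
      exact absurd this (by decide)
    obtain ⟨s₀, hs₀⟩ := k2.2 hV
    constructor
    · rintro ⟨s, hs⟩
      simp only [g0 s, cond_false] at hs
      cases g1 : dg (d (2 * n + 1)) (seg Y s) with
      | true =>
        simp only [g1, cond_true] at hs
        exact (Option.some_inj.1 hs).symm
      | false =>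
        simp only [g1, cond_false] at hs
        exact absurd hs (by simp)
    · rintro rfl
      exact ⟨s₀, by simp only [g0 s₀, hs₀, cond_false, cond_true]; rfl⟩

end Pool.Agent.H16R.BO
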