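import Pool.Agent.H16R.BO.Stm

/-! RG: the coding ends on a branch of the tree of the level. -/

set_option autoImplicit false

namespace Pool.Agent.H16R.BO

open Nat.Partrec (Code)
open Encodable
open Pool.Agent.H639.LU Pool.Agent.H869R3.FN Pool.Agent.Y579.PP Pool.Agent.R616.DI
open Pool.Agent.Helper446.Defs Pool.Agent.Helper446.Oracle

theorem RG_app (η : Str) (X : ℕ → Bool) (t : ℕ) :
    seg (fun n => if n < η.length then η.getD n false else X (n - η.length)) (η.length + t) =
      η ++ seg X t := by
  apply List.ext_getElem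
  · simp [seg]
  · intro i h1 h2
    simp only [seg, List.getElem_map, List.getElem_range]
    by_cases hi : i < η.length
    · rw [if_pos hi, List.getElem_append_left hi, List.getD_eq_getElem?_getD,
        List.getElem?_eq_getElem hi]
      rfl
    · rw [if_neg hi, List.getElem_append_right (by omega)]
      simp

theorem RG : P_RG := by
  intro r m e g ν ee pl hC hm hP X Y hY
  have D2 := D2 N1 N2
  obtain ⟨d2a, d2b, d2c, d2d, d2e⟩ := D2
  obtain ⟨n2a, n2b, n2c, n2d⟩ := N2 N1
  have hlev : ∀ x, (pl x).1 ≤ m := fun x => (hP.lev x).trans ((d2b ee x).trans hm)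
  have hlen : ∀ x : Str, x.length ≤ (g (pl x).1 ((pl x).2 ++ x)).length := by
    intro x
    have h1 := (hC.tr (pl x).1 (hlev x)).dec ((pl x).2 ++ x)
    have h2 := D1.2.2.2 (e (pl x).1) (g (pl x).1 ((pl x).2 ++ x))
    rw [h1] at h2
    rw [List.length_append] at h2
    omega
  -- the levels
  obtain ⟨t1, ht1⟩ := d2d ee X
  have hle : ∀ t, (pl (seg X t)).1 ≤ cntP (J X) ee := fun t => (hP.lev _).trans (d2c ee X t)
  have hgrow : ∀ d, min (cntP (J X) ee) ((pl (seg X t1)).1 + d) ≤ (pl (seg X (t1 + d))).1 := by
    intro d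
    induction d with
    | zero => simp
    | succ d ih =>
      have hc : cnt ee (seg X (t1 + d) ++ [X (t1 + d)]) = cntP (J X) ee := by
        rw [← G2_seg_succ]
        exact ht1 _ (by omega)
      have e1 : seg X (t1 + (d + 1)) = seg X (t1 + d) ++ [X (t1 + d)] := by
        rw [← G2_seg_succ]
        rfl
      by_cases hlt : (pl (seg X (t1 + d))).1 < cntP (J X) ee
      · have := hP.grow (seg X (t1 + d)) (X (t1 + d)) (by rw [hc]; exact hlt)
        rw [e1, this]
        omega
      · have := hP.stay (seg X (t1 + d)) (X (t1 + d)) (by rw [hc]; omega)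
        rw [e1, this]
        omega
  obtain ⟨t2, ht2, hl2⟩ : ∃ t2 ≥ t1, (pl (seg X t2)).1 = cntP (J X) ee := by
    refine ⟨t1 + cntP (J X) ee, by omega, ?_⟩
    have h1 := hgrow (cntP (J X) ee)
    have h2 := hle (t1 + cntP (J X) ee)
    omega
  have hconst : ∀ d, pl (seg X (t2 + d)) = pl (seg X t2) := by
    intro d
    induction d with
    | zero => rfl
    | succ d ih =>
      have hc : cnt ee (seg X (t2 + d) ++ [X (t2 + d)]) = cntP (J X) ee := by
        rw [← G2_seg_succ]
        exact ht1 _ (by omega)
      have e1 : seg X (t2 + (d + 1)) = seg X (t2 + d) ++ [X (t2 + d)] := by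
        rw [← G2_seg_succ]
        rfl
      have := hP.stay (seg X (t2 + d)) (X (t2 + d)) (by rw [hc, ih, hl2])
      rw [e1, this, ih]
  set c := cntP (J X) ee with hcdef
  set η := (pl (seg X t2)).2 with hη
  have hpl : ∀ t ≥ t2, pl (seg X t) = (c, η) := by
    intro t ht
    obtain ⟨d, rfl⟩ := Nat.exists_eq_add_of_le ht
    rw [hconst d]
    exact Prod.ext hl2 rfl
  have hcm : c ≤ m := by
    rw [← hl2]
    exact hlev _
  have hYt : ∀ t ≥ t2, seg Y (g c (η ++ seg X t)).length = g c (η ++ seg X t) := by
    intro t ht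
    have h1 := hY t
    simp only [hpl t ht] at h1
    exact h1
  have hlt : ∀ t ≥ t2, t ≤ (g c (η ++ seg X t)).length := by
    intro t ht
    have h1 := hlen (seg X t)
    simp only [hpl t ht] at h1
    rwa [seg_len] at h1
  have htr := hC.tr c hcm
  have hB := B1 D1 (e c) (g c) htr
  refine ⟨fun n => if n < η.length then η.getD n false else X (n - η.length), ?_⟩
  funext n
  let t := max t2 (n + 1)
  have ht : t2 ≤ t := le_max_left _ _
  have htn : n + 1 ≤ t := le_max_right _ _
  have h1 := (hB.2.1 (fun n => if n < η.length then η.getD n false else X (n - η.length))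
    (η.length + t)).2
  rw [RG_app] at h1
  have h2 := hYt t ht
  have h3 := hlt t ht
  have h4 : n < (g c (η ++ seg X t)).length := by omega
  have h5 : (seg Y (g c (η ++ seg X t)).length).getD n false =
      (seg (br (g c) (fun n => if n < η.length then η.getD n false else X (n - η.length)))
        (g c (η ++ seg X t)).length).getD n false := by
    rw [h2, h1]
  rw [seg_getD _ _ n h4, seg_getD _ _ n h4] at h5
  exact h5.symm

end Pool.Agent.H16R.BO
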