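import Pool.Agent.H16R.BO.Stm

set_option autoImplicit false

namespace Pool.Agent.H16R.BO

open Nat.Partrec (Code)
open Encodable
open Pool.Agent.H639.LU Pool.Agent.H869R3.FN Pool.Agent.Y579.PP Pool.Agent.R616.DI
open Pool.Agent.Helper446.Defs Pool.Agent.Helper446.Oracle

/-- If player I wins all games of a sequence. -/
theorem RL : P_AN → P_RT → P_PA → P_RL := by
  intro hAN hRT hPA F hF hF' P β hβ
  let τ : ℕ → Bool := fun k => match (decode k : Option (ℕ × Code × Str)) with
    | some q => β q.1 q.2.1 q.2.2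
    | none => false
  have hτ : ∀ t c x, τ (encode (t, c, x)) = β t c x := by
    intro t c x
    simp only [τ, encodek]
  obtain ⟨F', h1, h2, h3, i, hi⟩ := hPA F hF hF' τ
  obtain ⟨d, hd, hdt⟩ := hRT i
  refine ⟨F', h1, h2, h3, d, hd, fun Y hY t => ?_⟩
  obtain ⟨A, hA1, hA2⟩ := hAN (d t) i (fun x => encode (t, d t, x)) τ Y (fun n σ => hdt t n σ)
    (hi Y hY)
  refine ⟨A, hA2, hβ t (d t) A Y ?_⟩
  have h4 : (fun x => τ (encode (t, d t, x))) = β t (d t) := funext fun x => hτ t (d t) x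
  rw [h4] at hA1
  exact hA1

end Pool.Agent.H16R.BO
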