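import Pool.Agent.H16R.BO.Stm

/-!
RT: the recursion theorem with a parameter.
-/

set_option autoImplicit false

namespace Pool.Agent.H16R.BO

open Nat.Partrec (Code)
open Encodable
open Pool.Agent.H639.LU Pool.Agent.H869R3.FN Pool.Agent.Y579.PP Pool.Agent.R616.DI
open Pool.Agent.Helper446.Defs Pool.Agent.Helper446.Oracle

namespace RTL

/-- the function of the recursion theorem -/
def fn (i : Code) (C : Code) (p : ℕ) : Part ℕ :=
  (Part.ofOption (decode (α := ℕ × ℕ × Str) p)).bind fun w =>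
    (Nat.rfindOpt (G2_s (Code.curry C w.1) w.2.2 w.2.1)).bind fun x =>
      Part.ofOption (nxtv i w.2.2 (encode (w.1, Code.curry C w.1, x)))

theorem fn_eq (i C : Code) (t n : ℕ) (σ : Str) : fn i C (Nat.pair t (encode (n, σ))) =
    (Nat.rfindOpt (G2_s (Code.curry C t) σ n)).bind fun x =>
      Part.ofOption (nxtv i σ (encode (t, Code.curry C t, x))) := by
  have h : Nat.pair t (encode (n, σ)) = encode (t, n, σ) := by simp [encode_prod_val]
  unfold fn
  rw [h, encodek]
  simp

theorem hcu : Computable (fun p : Code × ℕ => Code.curry p.1 p.2) :=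
  Code.primrec₂_curry.to_comp

theorem hc1 : Computable (fun y : (Code × ℕ) × (ℕ × ℕ × Str) => Code.curry y.1.1 y.2.1) :=
  hcu.comp (f := fun p : Code × ℕ => Code.curry p.1 p.2)
    (g := fun y : (Code × ℕ) × (ℕ × ℕ × Str) => (y.1.1, y.2.1))
    (Computable.pair (Computable.fst.comp Computable.fst) (Computable.fst.comp Computable.snd))

theorem h1 : Partrec (fun p : Code × Str × ℕ => Nat.rfindOpt (G2_s p.1 p.2.1 p.2.2)) :=
  Partrec.rfindOpt (G2_cs C1 C2).to₂

theorem hc3 : Computable (fun y : ((Code × ℕ) × (ℕ × ℕ × Str)) × Str =>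
    encode (y.1.2.1, Code.curry y.1.1.1 y.1.2.1, y.2)) := by
  have hc2 : Computable (fun y : ((Code × ℕ) × (ℕ × ℕ × Str)) × Str =>
      Code.curry y.1.1.1 y.1.2.1) := hc1.comp Computable.fst
  exact Computable.encode.comp (f := fun y : ℕ × Code × Str => encode y)
    (g := fun y : ((Code × ℕ) × (ℕ × ℕ × Str)) × Str =>
      (y.1.2.1, Code.curry y.1.1.1 y.1.2.1, y.2))
    (Computable.pair (Computable.fst.comp (Computable.snd.comp Computable.fst))
      (Computable.pair hc2 Computable.snd))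

theorem h3 (i : Code) : Partrec₂ (fun (p : (Code × ℕ) × (ℕ × ℕ × Str)) (x : Str) =>
    Part.ofOption (nxtv i p.2.2.2 (encode (p.2.1, Code.curry p.1.1 p.2.1, x)))) := by
  have h2 : Computable (fun p : Code × Str × ℕ => nxtv p.1 p.2.1 p.2.2) := C1.1
  have h4 : Computable (fun y : ((Code × ℕ) × (ℕ × ℕ × Str)) × Str =>
      nxtv i y.1.2.2.2 (encode (y.1.2.1, Code.curry y.1.1.1 y.1.2.1, y.2))) :=
    h2.comp (f := fun p : Code × Str × ℕ => nxtv p.1 p.2.1 p.2.2)
      (g := fun y : ((Code × ℕ) × (ℕ × ℕ × Str)) × Str =>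
        (i, y.1.2.2.2, encode (y.1.2.1, Code.curry y.1.1.1 y.1.2.1, y.2)))
      (Computable.pair (Computable.const i) (Computable.pair
        (Computable.snd.comp (Computable.snd.comp (Computable.snd.comp Computable.fst))) hc3))
  exact Computable.ofOption h4

/-- the inner part, with two arguments -/
def gn (i : Code) (p : Code × ℕ) (w : ℕ × ℕ × Str) : Part ℕ :=
  (Nat.rfindOpt (G2_s (Code.curry p.1 w.1) w.2.2 w.2.1)).bind fun x =>
    Part.ofOption (nxtv i w.2.2 (encode (w.1, Code.curry p.1 w.1, x)))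

theorem hm : Partrec (fun y : (Code × ℕ) × (ℕ × ℕ × Str) =>
    Nat.rfindOpt (G2_s (Code.curry y.1.1 y.2.1) y.2.2.2 y.2.2.1)) :=
  h1.comp (f := fun p : Code × Str × ℕ => Nat.rfindOpt (G2_s p.1 p.2.1 p.2.2))
    (g := fun y : (Code × ℕ) × (ℕ × ℕ × Str) => (Code.curry y.1.1 y.2.1, y.2.2.2, y.2.2.1))
    (Computable.pair hc1 (Computable.pair
      (Computable.snd.comp (Computable.snd.comp Computable.snd))
      (Computable.fst.comp (Computable.snd.comp Computable.snd))))

theorem h5 (i : Code) : Partrec₂ (gn i) :=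
  Partrec.bind (f := fun y : (Code × ℕ) × (ℕ × ℕ × Str) =>
      Nat.rfindOpt (G2_s (Code.curry y.1.1 y.2.1) y.2.2.2 y.2.2.1)) hm (h3 i)

theorem fn_partrec (i : Code) : Partrec₂ (fn i) := by
  have h6 : Partrec (fun p : Code × ℕ => Part.ofOption (decode (α := ℕ × ℕ × Str) p.2)) :=
    Computable.ofOption (Computable.decode.comp Computable.snd)
  exact (Partrec.bind h6 (h5 i)).of_eq fun p => rfl

end RTL

theorem RT : P_RT := by
  intro i
  obtain ⟨c, hc⟩ := Code.fixed_point₂ (RTL.fn_partrec i)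
  refine ⟨fun t => Code.curry c t, ?_, fun t n σ => ?_⟩
  · exact Code.primrec₂_curry.to_comp.comp (Computable.const c) Computable.id
  · rw [Code.eval_curry, hc, RTL.fn_eq]

end Pool.Agent.H16R.BO
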