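import Pool.Agent.H16R.BO.BR
import Pool.Agent.H16R.BO.MS

/-! [ST], [CH]: one level, and nested trees. -/

set_option autoImplicit false

namespace Pool.Agent.H16R.BO

open Nat.Partrec (Code)
open Encodable
open Pool.Agent.H639.LU Pool.Agent.H869R3.FN Pool.Agent.Y579.PP Pool.Agent.R616.DI
open Pool.Agent.Helper446.Defs Pool.Agent.Helper446.Oracle

namespace STL

theorem meas_clo {E : Set (ℕ → Bool)} (hE : Clo E) : MeasurableSet E := by
  have h1 : E = ⋂ t, {X | ∃ X' ∈ E, seg X' t = seg X t} := by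
    ext X
    simp only [Set.mem_iInter]
    exact ⟨fun h t => ⟨X, h, rfl⟩, fun h => hE X h⟩
  rw [h1]
  exact MeasurableSet.iInter fun t => MSL.meas_seg (fun σ => ∃ X' ∈ E, seg X' t = σ) t

theorem meas_od : MeasurableSet {A : ℕ → Bool | od A} := by
  have h1 : {A : ℕ → Bool | od A} = ⋃ n, {A : ℕ → Bool | A (2 * n + 1) = true} := by
    ext A
    simp [od]
  rw [h1]
  exact MeasurableSet.iUnion fun n =>
    (measurable_pi_apply (2 * n + 1) : Measurable (fun X : ℕ → Bool => X (2 * n + 1)))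
      (measurableSet_singleton true)

/-- the payoff set -/
def PP (G : (ℕ → Bool) → ℕ → Bool) (E : Set (ℕ → Bool)) (n : ℕ) (b : Bool) :
    Set ((ℕ → Bool) × (ℕ → Bool)) :=
  {p | p.2 ∈ E ∧ (G p.2 n = b ↔ od p.1)}

theorem meas_PP {G : (ℕ → Bool) → ℕ → Bool} (hG : Measurable G) {E : Set (ℕ → Bool)} (hE : Clo E)
    (n : ℕ) (b : Bool) : MeasurableSet (PP G E n b) := by
  refine MeasurableSet.inter (measurable_snd (meas_clo hE)) (MeasurableSet.iff ?_ ?_)
  · have h1 : Measurable (fun p : (ℕ → Bool) × (ℕ → Bool) => G p.2 n) :=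
      (measurable_pi_apply n).comp (hG.comp measurable_snd)
    exact h1 (measurableSet_singleton b)
  · exact measurable_fst meas_od

end STL

open STL

/-- [ST] -/
theorem ST (gm : P_GM) (rl : P_RL) (pr : P_PR) : P_ST := by
  intro G hG E hE hE' hN
  by_contra hcon
  push Not at hcon
  -- the digit belonging to a number
  let bt : ℕ → Bool := fun t => decide (t % 2 = 1)
  let P : ℕ → Set ((ℕ → Bool) × (ℕ → Bool)) := fun t => PP G E (t / 2) (bt t)
  have h1 : ∀ (t : ℕ) (c : Code), ∃ β : Str → Bool, ∀ A Y, Follows c β A Y → (A, Y) ∉ P t := by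
    intro t c
    rcases gm (P t) (meas_PP hG hE _ _) c with ⟨T, hT, h⟩ | h
    · exfalso
      obtain ⟨A, hA⟩ := hcon (t / 2) (bt t) c T hT (by
        rintro _ ⟨A, rfl⟩
        exact (h A).1)
      rcases hA with ⟨a1, a2⟩ | ⟨a1, a2⟩
      · exact a2 ((h A).2.1 a1)
      · exact a1 ((h A).2.2 a2)
    · exact h
  choose β hβ using h1
  obtain ⟨F', hF', hcl, hcof, d, hd, hdY⟩ := rl E hE hE' P β hβ
  obtain ⟨c, hc⟩ := pr d hd
  refine hN ⟨F', hF', hcl, hcof, c, fun Y hY => hc Y (G Y) fun n => ⟨?_, ?_⟩⟩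
  · obtain ⟨A, hA, hAP⟩ := hdY Y hY (2 * n)
    refine ⟨A, hA, ?_⟩
    have e1 : 2 * n / 2 = n := by omega
    have e2 : bt (2 * n) = false := by
      simp only [bt]
      exact decide_eq_false (by omega)
    have h2 : ¬ (G Y n = false ↔ od A) := by
      intro h3
      apply hAP
      change Y ∈ E ∧ (G Y (2 * n / 2) = bt (2 * n) ↔ od A)
      rw [e1, e2]
      exact ⟨hF' hY, h3⟩
    cases hGY : G Y n with
    | true =>
      rw [hGY] at h2
      refine ⟨fun _ => rfl, fun _ => ?_⟩
      by_contra h3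
      exact h2 ⟨fun h4 => absurd h4 (by decide), fun h4 => absurd h4 h3⟩
    | false =>
      rw [hGY] at h2
      refine ⟨fun h3 => ?_, fun h3 => absurd h3 (by decide)⟩
      exact absurd ⟨fun _ => h3, fun _ => rfl⟩ h2
  · obtain ⟨A, hA, hAP⟩ := hdY Y hY (2 * n + 1)
    refine ⟨A, hA, ?_⟩
    have e1 : (2 * n + 1) / 2 = n := by omega
    have e2 : bt (2 * n + 1) = true := by
      simp only [bt]
      exact decide_eq_true (by omega)
    have h2 : ¬ (G Y n = true ↔ od A) := by
      intro h3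
      apply hAP
      change Y ∈ E ∧ (G Y ((2 * n + 1) / 2) = bt (2 * n + 1) ↔ od A)
      rw [e1, e2]
      exact ⟨hF' hY, h3⟩
    cases hGY : G Y n with
    | false =>
      rw [hGY] at h2
      refine ⟨fun _ => rfl, fun _ => ?_⟩
      by_contra h3
      exact h2 ⟨fun h4 => absurd h4 (by decide), fun h4 => absurd h4 h3⟩
    | true =>
      rw [hGY] at h2
      refine ⟨fun h3 => ?_, fun h3 => absurd h3 (by decide)⟩
      exact absurd ⟨fun _ => h3, fun _ => rfl⟩ h2

theorem NTG.mono {G : (ℕ → Bool) → ℕ → Bool} {F F₁ : Set (ℕ → Bool)} (h : NTG G F)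
    (hF : F₁ ⊆ F) : NTG G F₁ := by
  rintro ⟨F', h1, h2⟩
  exact h ⟨F', h1.trans hF, h2⟩

/-- the sequences without a `true` at an odd place -/
theorem clo_nod : Clo {A : ℕ → Bool | ¬ od A} ∧ Cof {A : ℕ → Bool | ¬ od A} := by
  constructor
  · rintro X hX ⟨n, hn⟩
    obtain ⟨A, hA, e⟩ := hX (2 * n + 2)
    exact hA ⟨n, by rw [seg_inj e (by omega)]; exact hn⟩
  · intro z
    obtain ⟨A, hA0, hA1⟩ := joinEven z (fun _ => false)
    refine ⟨A, ?_, K4.2.2.2 A z (fun n => 2 * n) (by fun_prop) (fun n => (hA0 n).symm)⟩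
    rintro ⟨n, hn⟩
    rw [hA1] at hn
    exact absurd hn (by decide)

/-- [CH] -/
theorem CH (st : P_ST) : P_CH := by
  intro G hG F hF hF' hN m
  obtain ⟨B2a, B2b, B2c⟩ := B2 D1 B1
  induction m generalizing F with
  | zero =>
    obtain ⟨c, T, hT⟩ := emb F hF hF'
    exact ⟨fun _ => c, fun _ => T, fun _ => 0, fun _ => false,
      ⟨Computable.const c, fun q _ => hT.toTr, fun q hq => absurd hq (Nat.not_lt_zero q),
        fun q h1 h2 => by omega⟩, B2b F c T hT hF⟩
  | succ m ih =>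
    obtain ⟨n, b₀, c, T, hT, hTF, hTv⟩ := st G hG F hF hF' hN
    obtain ⟨b1, b2⟩ := BR c T hT {A : ℕ → Bool | ¬ od A}
    have hsub : br T '' {A : ℕ → Bool | ¬ od A} ⊆ F := by
      rintro _ ⟨A, -, rfl⟩
      exact hTF ⟨A, rfl⟩
    obtain ⟨e, g, ν, b, hgc, hgm⟩ := ih (br T '' {A : ℕ → Bool | ¬ od A}) (b1 clo_nod.1)
      (b2 clo_nod.2) (hN.mono hsub)
    refine ⟨fun q => if q ≤ m then e q else c, fun q => if q ≤ m then g q else T,
      fun q => if q ≤ m then ν q else n, fun q => if q ≤ m then b q else b₀,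
      ⟨S2_ite m e hgc.ce c, ?_, ?_, ?_⟩, ?_⟩
    · intro q hq
      by_cases h : q ≤ m
      · simp only [h, if_true]
        exact hgc.tr q h
      · simp only [h, if_false]
        exact hT
    · intro q hq
      have hq1 : q ≤ m := by omega
      by_cases h : q + 1 ≤ m
      · simp only [hq1, h, if_true]
        exact hgc.sub q (by omega)
      · have hqm : q = m := by omega
        subst hqm
        simp only [h, if_false, le_refl, if_true]
        intro Y hY
        obtain ⟨A, hA, rfl⟩ := hgm hY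
        exact ⟨A, hA, rfl⟩
    · intro q hq1 hq2
      by_cases h : q ≤ m
      · simp only [h, if_true]
        exact hgc.val q hq1 h
      · simp only [h, if_false]
        exact hTv
    · have h : ¬ (m + 1 ≤ m) := by omega
      simp only [h, if_false]
      exact hTF

end Pool.Agent.H16R.BO
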