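import Pool.Agent.R616.DI.Cone

/-!
Definitions and statements for the theorem on Borel operators with bounded non-uniformity.
`Clo`, `Cof`, `Tr`, `Rng`, `br`, `dec`, `Chain`, `Plan`, `Works` are in `Pool/Agent/H639/LU/Defs.lean` and
`Pool/Agent/H639/LU/Stubs.lean`.
-/

set_option autoImplicit false

namespace Pool.Agent.H16R.BO

open Nat.Partrec (Code)
open Encodable
open Pool.Agent.H639.LU Pool.Agent.H869R3.FN Pool.Agent.Y579.PP Pool.Agent.R616.DI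
open Pool.Agent.Helper446.Defs Pool.Agent.Helper446.Oracle

/-- the sequence has a `true` at an odd place -/
def od (A : ℕ → Bool) : Prop := ∃ n, A (2 * n + 1) = true

/-- The point `Y` is decoded to `A` by `c`, and the digits of `A` are the answers of the strategy
`β` to the shortest initial segments of `Y` which are decoded to the initial segments of `A`. -/
def Follows (c : Code) (β : Str → Bool) (A Y : ℕ → Bool) : Prop :=
  (∀ n, ∃ t, dec c (seg Y t) = seg A n) ∧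
  ∀ n t, (dec c (seg Y t)).length = n → (∀ t' < t, (dec c (seg Y t')).length < n) →
    A n = β (seg Y t)

/-- GM: the game in which player I plays `A` and player II plays `Y`, decoded by `c` to `A`, and
player II wants `(A, Y) ∈ P` (from Borel determinacy). -/
def P_GM : Prop :=
  ∀ P : Set ((ℕ → Bool) × (ℕ → Bool)), MeasurableSet P → ∀ c : Code,
    (∃ G : Str → Str, Tr c G ∧ ∀ A, (A, br G A) ∈ P) ∨
    ∃ β : Str → Bool, ∀ A Y, Follows c β A Y → (A, Y) ∉ P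

/-- AN: analysis of the program of the recursion theorem (as in `G2`). -/
def P_AN : Prop :=
  ∀ (c i : Code) (q : Str → ℕ) (z Y : ℕ → Bool),
    (∀ (n : ℕ) (σ : Str), c.eval (encode (n, σ)) = (Nat.rfindOpt (G2_s c σ n)).bind
      fun x => Part.ofOption (nxtv i σ (q x))) →
    Red i Y z → ∃ A, Follows c (fun x => z (q x)) A Y ∧ Red c Y A

/-- RT: the recursion theorem with a parameter. -/
def P_RT : Prop :=
  ∀ i : Code, ∃ d : ℕ → Code, Computable d ∧ ∀ (t n : ℕ) (σ : Str),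
    (d t).eval (encode (n, σ)) = (Nat.rfindOpt (G2_s (d t) σ n)).bind
      fun x => Part.ofOption (nxtv i σ (encode (t, d t, x)))

/-- BR: sets of branches. -/
def P_BR : Prop :=
  ∀ (c : Code) (G : Str → Str), Tr c G → ∀ S : Set (ℕ → Bool),
    (Clo S → Clo (br G '' S)) ∧ (Cof S → Cof (br G '' S))

/-- PA: parameters (from `emb`, BR). -/
def P_PA : Prop :=
  ∀ F : Set (ℕ → Bool), Clo F → Cof F → ∀ τ : ℕ → Bool,
    ∃ F' ⊆ F, Clo F' ∧ Cof F' ∧ ∃ i : Code, ∀ Y ∈ F', Red i Y τ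

/-- RL: if player I wins all games of a sequence (from AN, RT, PA). -/
def P_RL : Prop :=
  ∀ F : Set (ℕ → Bool), Clo F → Cof F → ∀ (P : ℕ → Set ((ℕ → Bool) × (ℕ → Bool)))
    (β : ℕ → Code → Str → Bool), (∀ t c A Y, Follows c (β t c) A Y → (A, Y) ∉ P t) →
    ∃ F' ⊆ F, Clo F' ∧ Cof F' ∧ ∃ d : ℕ → Code, Computable d ∧
      ∀ Y ∈ F', ∀ t, ∃ A, Red (d t) Y A ∧ (A, Y) ∉ P t

/-- BC: Borel sets with members of cofinally many degrees (from GM, AN, RT, B2, B3). -/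
def P_BC : Prop :=
  ∀ B : Set (ℕ → Bool), MeasurableSet B → Cof B → ∃ F ⊆ B, Clo F ∧ Cof F

/-- PR: a program from two enumerations. -/
def P_PR : Prop :=
  ∀ d : ℕ → Code, Computable d → ∃ c : Code, ∀ Y V : ℕ → Bool,
    (∀ n, (∃ A, Red (d (2 * n)) Y A ∧ (od A ↔ V n = true)) ∧
      ∃ A, Red (d (2 * n + 1)) Y A ∧ (od A ↔ V n = false)) → Red c Y V

/-- no program computes `G` on a closed subset of `F` with members of cofinally many degrees -/
def NTG (G : (ℕ → Bool) → ℕ → Bool) (F : Set (ℕ → Bool)) : Prop :=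
  ¬ ∃ F' ⊆ F, Clo F' ∧ Cof F' ∧ ∃ c : Code, ∀ Y ∈ F', Red c Y (G Y)

/-- ST: one level (from GM, RL, PR). -/
def P_ST : Prop :=
  ∀ G : (ℕ → Bool) → ℕ → Bool, Measurable G → ∀ E : Set (ℕ → Bool), Clo E → Cof E → NTG G E →
    ∃ (n : ℕ) (b : Bool) (c : Code) (T : Str → Str), Tr c T ∧ Rng T ⊆ E ∧
      ∀ A, (G (br T A) n = b ↔ od A)

/-- nested trees -/
structure GC (G : (ℕ → Bool) → ℕ → Bool) (m : ℕ) (e : ℕ → Code) (g : ℕ → Str → Str)
    (ν : ℕ → ℕ) (b : ℕ → Bool) : Prop where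
  ce : Computable e
  tr : ∀ q ≤ m, Tr (e q) (g q)
  sub : ∀ q < m, ∀ Y ∈ Rng (g q), ∃ A, ¬ od A ∧ Y = br (g (q + 1)) A
  val : ∀ q, 1 ≤ q → q ≤ m → ∀ A, (G (br (g q) A) (ν q) = b q ↔ od A)

/-- CH: nested trees of all lengths (from ST, BR, `emb`). -/
def P_CH : Prop :=
  ∀ G : (ℕ → Bool) → ℕ → Bool, Measurable G → ∀ F : Set (ℕ → Bool), Clo F → Cof F → NTG G F →
    ∀ m : ℕ, ∃ (e : ℕ → Code) (g : ℕ → Str → Str) (ν : ℕ → ℕ) (b : ℕ → Bool),
      GC G m e g ν b ∧ Rng (g m) ⊆ F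

/-- CC: nested trees give a chain for a c.e. operator. -/
def P_CC : Prop :=
  ∀ (G : (ℕ → Bool) → ℕ → Bool) (m : ℕ) (e : ℕ → Code) (g : ℕ → Str → Str) (ν : ℕ → ℕ)
    (b : ℕ → Bool), GC G m e g ν b → ∃ r : Code, Chain r m e g (fun q => q) ∧
      (∀ Y q, W r Y q → 1 ≤ q ∧ q ≤ m) ∧
      ∀ q, 1 ≤ q → q ≤ m → ∀ A, (W r (br (g q) A) q ↔ od A)

/-- RG: the coding ends on a branch of the tree of the level (a part of the proof of `M4`). -/
def P_RG : Prop :=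
  ∀ (r : Code) (m : ℕ) (e : ℕ → Code) (g : ℕ → Str → Str) (ν : ℕ → ℕ) (ee : List ℕ)
    (pl : Str → ℕ × Str), Chain r m e g ν → ee.length ≤ m → Plan r m e g ν ee pl →
    ∀ X Y : ℕ → Bool, (∀ t, seg Y (g (pl (seg X t)).1 ((pl (seg X t)).2 ++ seg X t)).length =
      g (pl (seg X t)).1 ((pl (seg X t)).2 ++ seg X t)) → Y ∈ Rng (g (cntP (J X) ee))

/-- `Y` is on a branch of the tree `q` and exactly the first `q` numbers are enumerated -/
def Lev (r : Code) (k : ℕ) (g : ℕ → Str → Str) (ν : ℕ → ℕ) (q : ℕ) (Y : ℕ → Bool) : Prop :=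
  q ≤ k ∧ Y ∈ Rng (g q) ∧ ∀ p, 1 ≤ p → p ≤ k → (W r Y (ν p) ↔ p ≤ q)

/-- LG: the local theorem for a chain (from RG; as `localF` in `R616/DI/Loc.lean` and `codingF` in
`H869R3/FN/LocF.lean`). -/
def P_LG : Prop :=
  ∀ (r : Code) (k : ℕ) (e : ℕ → Code) (g : ℕ → Str → Str) (ν : ℕ → ℕ), Chain r k e g ν →
    ∀ F : Set (ℕ → Bool), Clo F → Rng (g k) ⊆ F →
    ∃ z₁ : ℕ → Bool, ∀ X, le z₁ X → ∀ V : ℕ → Bool, le X V → ∀ e' : Code,
      (∀ i j : Code, {l : Code | W e' V (encode (i, j, l))}.encard ≤ k) →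
      (∀ i j : Code, ∀ Y ∈ F, (∃ q, Lev r k g ν q Y) → Red i X Y → Red j Y X →
        ∃ l : Code, W e' V (encode (i, j, l)) ∧ Red l V (ch (W r Y))) →
      le (ch (J X)) V

/-- DP: the level is computed from `G Y`. -/
def P_DP : Prop :=
  ∀ (G : (ℕ → Bool) → ℕ → Bool) (m : ℕ) (e : ℕ → Code) (g : ℕ → Str → Str) (ν : ℕ → ℕ)
    (b : ℕ → Bool) (r : Code), GC G m e g ν b → (∀ Y q, W r Y q → 1 ≤ q ∧ q ≤ m) →
    (∀ q, 1 ≤ q → q ≤ m → ∀ A, (W r (br (g q) A) q ↔ od A)) →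
    ∃ d : Code, ∀ (q : ℕ) (Y : ℕ → Bool), Lev r m g (fun q => q) q Y → Red d (G Y) (ch (W r Y))

/-- LB: the local theorem for Borel operations (from CH, CC, LG, DP). -/
def P_LB : Prop :=
  ∀ G : (ℕ → Bool) → ℕ → Bool, Measurable G → ∀ F : Set (ℕ → Bool), Clo F → Cof F → NTG G F →
    ∀ k : ℕ, ∃ z₁ : ℕ → Bool, ∀ X, le z₁ X → ∀ V : ℕ → Bool, le X V → ∀ e : Code,
      (∀ i j : Code, {l : Code | W e V (encode (i, j, l))}.encard ≤ k) →
      (∀ i j : Code, ∀ Y ∈ F, Red i X Y → Red j Y X →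
        ∃ l : Code, W e V (encode (i, j, l)) ∧ Red l V (G Y)) →
      le (ch (J X)) V

/-- AB: operations with `k` candidates (from LB; as `above` in `R616/DI/Rea.lean`). -/
def P_AB : Prop :=
  ∀ (F F₁ : Set (ℕ → Bool)), F₁ ⊆ F → Clo F₁ → Cof F₁ → ∀ G : (ℕ → Bool) → ℕ → Bool,
    Measurable G → NTG G F₁ → ∀ z₂ : ℕ → Bool, (∀ X ∈ F, le z₂ X → le X (G X)) →
    ∀ (k : ℕ) (u : Code → Code → Finset Code), (∀ i j, (u i j).card ≤ k) →
    (∀ X ∈ F, le z₂ X → ∀ i j : Code, ∀ Y ∈ F, Red i X Y → Red j Y X →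
      ∃ l ∈ u i j, Red l (G X) (G Y)) →
    ∃ z, ∀ X ∈ F, le z X → le (ch (J X)) (G X)

/-- MS: measurability of programs. -/
def P_MS : Prop :=
  (∀ c : Code, MeasurableSet {p : (ℕ → Bool) × (ℕ → Bool) | Red c p.1 p.2}) ∧
  ∀ c : Code, ∃ f : (ℕ → Bool) → ℕ → Bool, Measurable f ∧ ∀ X Y, Red c X Y → Y = f X

/-- WM: c.e. operators and the jump are Borel. -/
def P_WM : Prop :=
  (∀ r : Code, Measurable (fun X : ℕ → Bool => ch (W r X))) ∧
    Measurable (fun X : ℕ → Bool => ch (J X))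

/-- MI: the failure of a finite list of programs in a degree is a Borel property (from MS). -/
def P_MI : Prop :=
  ∀ G : (ℕ → Bool) → ℕ → Bool, Measurable G → ∀ (i j : Code) (L : Finset Code),
    MeasurableSet {X : ℕ → Bool | ∃ X₁ Y₁ : ℕ → Bool, le X₁ X ∧ le X X₁ ∧ Red i X₁ Y₁ ∧
      Red j Y₁ X₁ ∧ ∀ l ∈ L, ¬ Red l (G X₁) (G Y₁)}

/-- MC: the cone theorem for Borel sets (from BC, `cone_mem`). -/
def P_MC : Prop :=
  ∀ B : Set (ℕ → Bool), MeasurableSet B → (∀ X ∈ B, ∀ Y, le X Y → le Y X → Y ∈ B) → Cof B →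
    ∃ z, ∀ X, le z X → X ∈ B

end Pool.Agent.H16R.BO
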